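import Mathlib

set_option autoImplicit false

open Finset

namespace Pool.Agent.R218.QI

section ring1

variable {A : Type*} [CommRing A]

theorem pow_zero_of_le {q : A} {N a : ℕ} (hN : q ^ N = 0) (h : N ≤ a) : q ^ a = 0 := by
  obtain ⟨b, rfl⟩ := Nat.exists_eq_add_of_le h
  rw [pow_add, hN, zero_mul]

/-- the double sum h(s,t) -/
def hs (q : A) (P1 P2 : ℕ → A) (L s t : ℕ) : A :=
  ∑ i ∈ range L, ∑ j ∈ range L, q ^ (i ^ 2 + 2 * j ^ 2 + 2 * i * j + s * i + t * j) * (P1 i * P2 j)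

theorem hs_rec1 (q : A) (P1 P2 : ℕ → A) (N : ℕ) (hN : q ^ N = 0)
    (h1 : ∀ n, (1 - q ^ (n + 1)) * P1 (n + 1) = P1 n) (L s t : ℕ) (hL : N ≤ L) :
    hs q P1 P2 (L + 1) s t = hs q P1 P2 (L + 1) (s + 1) t
      + q ^ (s + 1) * hs q P1 P2 (L + 1) (s + 2) (t + 2) := by
  have e : hs q P1 P2 (L + 1) s t - hs q P1 P2 (L + 1) (s + 1) t
      = ∑ i ∈ range (L + 1), ∑ j ∈ range (L + 1),
        q ^ (i ^ 2 + 2 * j ^ 2 + 2 * i * j + s * i + t * j) * ((1 - q ^ i) * P1 i * P2 j) := by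
    unfold hs
    rw [← sum_sub_distrib]
    apply sum_congr rfl
    intro i _
    rw [← sum_sub_distrib]
    apply sum_congr rfl
    intro j _
    have : i ^ 2 + 2 * j ^ 2 + 2 * i * j + (s + 1) * i + t * j
        = (i ^ 2 + 2 * j ^ 2 + 2 * i * j + s * i + t * j) + i := by ring
    rw [this, pow_add]
    ring
  rw [sum_range_succ'] at e
  have z0 : ∑ j ∈ range (L + 1), q ^ (0 ^ 2 + 2 * j ^ 2 + 2 * 0 * j + s * 0 + t * j)
      * ((1 - q ^ 0) * P1 0 * P2 j) = 0 := by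
    apply sum_eq_zero
    intro j _
    simp
  rw [z0, add_zero] at e
  have e2 : q ^ (s + 1) * hs q P1 P2 (L + 1) (s + 2) (t + 2)
      = ∑ i ∈ range L, ∑ j ∈ range (L + 1),
        q ^ ((i + 1) ^ 2 + 2 * j ^ 2 + 2 * (i + 1) * j + s * (i + 1) + t * j)
          * ((1 - q ^ (i + 1)) * P1 (i + 1) * P2 j) := by
    unfold hs
    rw [sum_range_succ]
    have z1 : ∑ j ∈ range (L + 1), q ^ (L ^ 2 + 2 * j ^ 2 + 2 * L * j + (s + 2) * L + (t + 2) * j)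
      * (P1 L * P2 j) = 0 := by
      apply sum_eq_zero
      intro j _
      rw [pow_zero_of_le hN (by nlinarith [Nat.zero_le (s * L)]), zero_mul]
    rw [z1, add_zero, mul_sum]
    apply sum_congr rfl
    intro i _
    rw [mul_sum]
    apply sum_congr rfl
    intro j _
    rw [h1 i]
    have : (i + 1) ^ 2 + 2 * j ^ 2 + 2 * (i + 1) * j + s * (i + 1) + t * j
      = (s + 1) + (i ^ 2 + 2 * j ^ 2 + 2 * i * j + (s + 2) * i + (t + 2) * j) := by ring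
    rw [this, pow_add]
    ring
  rw [e2, ← e]
  ring

theorem hs_rec2 (q : A) (P1 P2 : ℕ → A) (N : ℕ) (hN : q ^ N = 0)
    (h2 : ∀ n, (1 - q ^ (2 * n + 2)) * P2 (n + 1) = P2 n) (L s t : ℕ) (hL : N ≤ L) :
    hs q P1 P2 (L + 1) s t = hs q P1 P2 (L + 1) s (t + 2)
      + q ^ (t + 2) * hs q P1 P2 (L + 1) (s + 2) (t + 4) := by
  unfold hs
  rw [mul_sum, ← sum_add_distrib]
  apply sum_congr rfl
  intro i _
  have e : (∑ j ∈ range (L + 1), q ^ (i ^ 2 + 2 * j ^ 2 + 2 * i * j + s * i + t * j) * (P1 i * P2 j))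
      - ∑ j ∈ range (L + 1), q ^ (i ^ 2 + 2 * j ^ 2 + 2 * i * j + s * i + (t + 2) * j) * (P1 i * P2 j)
      = ∑ j ∈ range (L + 1),
        q ^ (i ^ 2 + 2 * j ^ 2 + 2 * i * j + s * i + t * j) * ((1 - q ^ (2 * j)) * P2 j * P1 i) := by
    rw [← sum_sub_distrib]
    apply sum_congr rfl
    intro j _
    have : i ^ 2 + 2 * j ^ 2 + 2 * i * j + s * i + (t + 2) * j
        = (i ^ 2 + 2 * j ^ 2 + 2 * i * j + s * i + t * j) + 2 * j := by ring
    rw [this, pow_add]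
    ring
  rw [sum_range_succ' (fun j => q ^ (i ^ 2 + 2 * j ^ 2 + 2 * i * j + s * i + t * j)
    * ((1 - q ^ (2 * j)) * P2 j * P1 i))] at e
  have z0 : q ^ (i ^ 2 + 2 * 0 ^ 2 + 2 * i * 0 + s * i + t * 0)
      * ((1 - q ^ (2 * 0)) * P2 0 * P1 i) = 0 := by
    simp
  rw [z0, add_zero] at e
  have e2 : q ^ (t + 2) * ∑ j ∈ range (L + 1),
      q ^ (i ^ 2 + 2 * j ^ 2 + 2 * i * j + (s + 2) * i + (t + 4) * j) * (P1 i * P2 j)
      = ∑ j ∈ range L,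
        q ^ (i ^ 2 + 2 * (j + 1) ^ 2 + 2 * i * (j + 1) + s * i + t * (j + 1))
          * ((1 - q ^ (2 * (j + 1))) * P2 (j + 1) * P1 i) := by
    rw [sum_range_succ]
    have z1 : q ^ (i ^ 2 + 2 * L ^ 2 + 2 * i * L + (s + 2) * i + (t + 4) * L)
      * (P1 i * P2 L) = 0 := by
      rw [pow_zero_of_le hN (by nlinarith [Nat.zero_le (t * L), Nat.zero_le (i * L), Nat.zero_le ((s + 2) * i)]), zero_mul]
    rw [z1, add_zero, mul_sum]
    apply sum_congr rfl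
    intro j _
    have h2' := h2 j
    have : 2 * (j + 1) = 2 * j + 2 := by ring
    rw [this, h2' ]
    have : i ^ 2 + 2 * (j + 1) ^ 2 + i * (2 * j + 2) + s * i + t * (j + 1)
      = (t + 2) + (i ^ 2 + 2 * j ^ 2 + 2 * i * j + (s + 2) * i + (t + 4) * j) := by ring
    have : i ^ 2 + 2 * (j + 1) ^ 2 + 2 * i * (j + 1) + s * i + t * (j + 1)
      = (t + 2) + (i ^ 2 + 2 * j ^ 2 + 2 * i * j + (s + 2) * i + (t + 4) * j) := by ring
    rw [this, pow_add]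
    ring
  rw [e2, ← e]
  ring

theorem e_rec (q : A) (P1 P2 : ℕ → A) (N : ℕ) (hN : q ^ N = 0)
    (h1 : ∀ n, (1 - q ^ (n + 1)) * P1 (n + 1) = P1 n)
    (h2 : ∀ n, (1 - q ^ (2 * n + 2)) * P2 (n + 1) = P2 n) (L s : ℕ) (hL : N ≤ L) :
    hs q P1 P2 (L + 1) s (2 * s + 1) = (1 + q ^ (s + 1)) * hs q P1 P2 (L + 1) (s + 1) (2 * (s + 1) + 1) := by
  have a1 := hs_rec1 q P1 P2 N hN h1 L s (2 * s + 1) hL
  have a2 := hs_rec2 q P1 P2 N hN h2 L (s + 1) (2 * s + 1) hL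
  have a3 := hs_rec1 q P1 P2 N hN h1 L (s + 1) (2 * s + 3) hL
  have b1 : 2 * s + 1 + 2 = 2 * s + 3 := by ring
  have b2 : 2 * s + 1 + 4 = 2 * s + 5 := by ring
  have b3 : 2 * s + 3 + 2 = 2 * s + 5 := by ring
  have b4 : s + 1 + 1 = s + 2 := by ring
  have b5 : s + 1 + 2 = s + 3 := by ring
  have b6 : 2 * (s + 1) + 1 = 2 * s + 3 := by ring
  rw [b1] at a1 a2
  rw [b2, b5] at a2
  rw [b3, b4, b5] at a3
  rw [b6, a1, a2]
  have : q ^ (2 * s + 3) = q ^ (s + 1) * q ^ (s + 2) := by rw [← pow_add]; congr 1; ring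
  rw [this]
  linear_combination -(q ^ (s + 1)) * a3

theorem hs_large (q : A) (P1 P2 : ℕ → A) (N : ℕ) (hN : q ^ N = 0) (h10 : P1 0 = 1) (h20 : P2 0 = 1)
    (L s t : ℕ) (hs' : N ≤ s) (ht : N ≤ t) : hs q P1 P2 (L + 1) s t = 1 := by
  unfold hs
  rw [sum_range_succ']
  have z : ∀ i ∈ range L, ∑ j ∈ range (L + 1),
      q ^ ((i + 1) ^ 2 + 2 * j ^ 2 + 2 * (i + 1) * j + s * (i + 1) + t * j) * (P1 (i + 1) * P2 j) = 0 := by
    intro i _
    apply sum_eq_zero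
    intro j _
    rw [pow_zero_of_le hN (by nlinarith [Nat.zero_le (t * j), Nat.zero_le (s * i)]), zero_mul]
  rw [sum_eq_zero z, zero_add, sum_range_succ']
  have z2 : ∀ j ∈ range L,
      q ^ (0 ^ 2 + 2 * (j + 1) ^ 2 + 2 * 0 * (j + 1) + s * 0 + t * (j + 1)) * (P1 0 * P2 (j + 1)) = 0 := by
    intro j _
    rw [pow_zero_of_le hN (by nlinarith [Nat.zero_le (t * j)]), zero_mul]
  rw [sum_eq_zero z2, zero_add]
  simp [h10, h20]

theorem e_prod (q : A) (P1 P2 : ℕ → A) (N : ℕ) (hN : q ^ N = 0)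
    (h1 : ∀ n, (1 - q ^ (n + 1)) * P1 (n + 1) = P1 n)
    (h2 : ∀ n, (1 - q ^ (2 * n + 2)) * P2 (n + 1) = P2 n) (L : ℕ) (hL : N ≤ L) (m : ℕ) :
    (∏ i ∈ range m, (1 + q ^ (i + 1))) * hs q P1 P2 (L + 1) m (2 * m + 1) = hs q P1 P2 (L + 1) 0 1 := by
  induction m with
  | zero => simp
  | succ m ih =>
    rw [prod_range_succ, ← ih, e_rec q P1 P2 N hN h1 h2 L m hL]
    ring

theorem H_eq (q : A) (P1 P2 : ℕ → A) (N : ℕ) (hN : q ^ N = 0)
    (h1 : ∀ n, (1 - q ^ (n + 1)) * P1 (n + 1) = P1 n)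
    (h2 : ∀ n, (1 - q ^ (2 * n + 2)) * P2 (n + 1) = P2 n) (L : ℕ) (hL : N ≤ L) (n : ℕ) :
    hs q P1 P2 (L + 1) (2 * n) (4 * n + 3)
      = (1 + q ^ (2 * n + 1) + q ^ (2 * n + 2)) * hs q P1 P2 (L + 1) (2 * n + 2) (2 * (2 * n + 2) + 1) := by
  have a1 := hs_rec2 q P1 P2 N hN h2 L (2 * n) (4 * n + 1) hL
  have a2 := e_rec q P1 P2 N hN h1 h2 L (2 * n) hL
  have a3 := e_rec q P1 P2 N hN h1 h2 L (2 * n + 1) hL
  have b1 : 2 * (2 * n) + 1 = 4 * n + 1 := by ring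
  have b2 : 4 * n + 1 + 2 = 4 * n + 3 := by ring
  have b3 : 4 * n + 1 + 4 = 4 * n + 5 := by ring
  have b4 : 2 * (2 * n + 2) + 1 = 4 * n + 5 := by ring
  have b5 : 2 * n + 1 + 1 = 2 * n + 2 := by ring
  rw [b2, b3] at a1
  rw [b1] at a2
  rw [b5, b4] at a3
  rw [b4]
  rw [a3] at a2
  rw [a2] at a1
  have : q ^ (4 * n + 3) = q ^ (2 * n + 1) * q ^ (2 * n + 2) := by rw [← pow_add]; congr 1; ring
  rw [this] at a1
  linear_combination -a1

theorem prod_range_two_mul {f : ℕ → A} (n : ℕ) :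
    ∏ i ∈ range (2 * n), f i = ∏ i ∈ range n, (f (2 * i) * f (2 * i + 1)) := by
  induction n with
  | zero => simp
  | succ n ih =>
    rw [prod_range_succ, ← ih, show 2 * (n + 1) = 2 * n + 1 + 1 by ring, prod_range_succ,
      prod_range_succ, mul_assoc]

end ring1

end Pool.Agent.R218.QI
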