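import Mathlib
import Pool.Agent.R218.QI.Ring1

set_option autoImplicit false

open Finset

namespace Pool.Agent.R218.QI

section ring2

variable {A : Type*} [CommRing A]

/-- (q;q^2)_n -/
def OO (q : A) (n : ℕ) : A := ∏ i ∈ range n, (1 - q ^ (2 * i + 1))

theorem OO_succ (q : A) (n : ℕ) : OO q (n + 1) = OO q n * (1 - q ^ (2 * n + 1)) := by
  unfold OO
  rw [prod_range_succ]

/-- the sum U_r -/
def Us (q : A) (P2 : ℕ → A) (r L : ℕ) : A :=
  ∑ s ∈ range L, (-1) ^ s * q ^ (s ^ 2 + 2 * (r + 1) * s) * (OO q (r + s + 1) * (P2 s * P2 (s + 2 * r + 2)))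

/-- the sum W_r -/
def Ws (q : A) (P2 : ℕ → A) (r L : ℕ) : A :=
  ∑ s ∈ range L, (-1) ^ s * q ^ (s ^ 2 + 2 * r * s) * ((1 + q ^ (2 * (r + s) + 1) + q ^ (2 * (r + s) + 2)) *
    (OO q (r + s + 1) * (P2 s * P2 (s + 2 * r + 2))))

theorem W_partial (q : A) (P2 : ℕ → A)
    (h2 : ∀ n, (1 - q ^ (2 * n + 2)) * P2 (n + 1) = P2 n) (r L : ℕ) :
    Ws q P2 r (L + 1) - (1 + q ^ (2 * r + 2) + q ^ (4 * r + 4)) * Us q P2 r (L + 1)
      = (-1) ^ L * q ^ ((L + 1) ^ 2 + 2 * r * (L + 1)) * (OO q (r + L + 2) * (P2 L * P2 (L + 2 * r + 2))) := by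
  induction L with
  | zero =>
    unfold Ws Us
    rw [sum_range_one, sum_range_one, show r + 0 + 2 = (r + 1) + 1 by ring, OO_succ q (r + 1)]
    simp only [pow_zero, add_zero, mul_zero, zero_add, one_mul, mul_one]
    have e1 : q ^ (0 ^ 2 : ℕ) = 1 := by simp
    have e2 : q ^ (4 * r + 4) = q ^ (1 ^ 2 + 2 * r) * q ^ (2 * (r + 1) + 1) := by
      rw [← pow_add]; congr 1; ring
    have e3 : q ^ (2 * r + 1) = q ^ (1 ^ 2 + 2 * r) := by congr 1; ring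
    rw [e1, e2, e3]
    ring
  | succ L ih =>
    unfold Ws Us at ih ⊢
    rw [sum_range_succ, sum_range_succ (fun s => (-1) ^ s * q ^ (s ^ 2 + 2 * (r + 1) * s) *
      (OO q (r + s + 1) * (P2 s * P2 (s + 2 * r + 2)))) (L + 1)]
    have h := h2 L
    have h' := h2 (L + 2 * r + 2)
    have o := OO_succ q (r + L + 2)
    have i1 : r + (L + 1) + 1 = r + L + 2 := by ring
    have i2 : L + 1 + 2 * r + 2 = L + 2 * r + 2 + 1 := by ring
    have i3 : r + (L + 1) + 2 = r + L + 2 + 1 := by ring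
    rw [i1, i2, i3, o]
    obtain ⟨v, hv⟩ : ∃ v : A, v = q ^ (2 * L + 2) := ⟨_, rfl⟩
    obtain ⟨w, hw⟩ : ∃ w : A, w = q ^ (2 * r) := ⟨_, rfl⟩
    obtain ⟨y, hy⟩ : ∃ y : A, y = q ^ ((L + 1) ^ 2 + 2 * r * (L + 1)) := ⟨_, rfl⟩
    have e1 : q ^ (2 * (r + (L + 1)) + 1) = v * w * q := by
      rw [hv, hw, ← pow_add, ← pow_succ]; congr 1; ring
    have e2 : q ^ (2 * (r + (L + 1)) + 2) = v * w * q ^ 2 := by
      rw [hv, hw, ← pow_add, ← pow_add]; congr 1; ring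
    have e3 : q ^ (2 * r + 2) = w * q ^ 2 := by
      rw [hw, ← pow_add]
    have e4 : q ^ (4 * r + 4) = w ^ 2 * q ^ 4 := by
      rw [hw, ← pow_mul, ← pow_add]; congr 1; ring
    have e5 : q ^ ((L + 1) ^ 2 + 2 * (r + 1) * (L + 1)) = y * v := by
      rw [hy, hv, ← pow_add]; congr 1; ring
    have e6 : q ^ ((L + 1 + 1) ^ 2 + 2 * r * (L + 1 + 1)) = y * (v * w * q) := by
      rw [hy, ← e1, ← pow_add]; congr 1; ring
    have e7 : q ^ (2 * (r + L + 2) + 1) = v * w * q ^ 3 := by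
      rw [hv, hw, ← pow_add, ← pow_add]; congr 1; ring
    have e8 : q ^ (2 * (L + 2 * r + 2) + 2) = v * w ^ 2 * q ^ 4 := by
      rw [hv, hw, ← pow_mul, ← pow_add, ← pow_add]; congr 1; ring
    rw [e8] at h'
    rw [← hv] at h
    rw [e3, e4, ← hy] at ih
    rw [e1, e2, e3, e4, e5, e6, e7, ← hy]
    rw [← h, ← h'] at ih
    rw [pow_succ]
    linear_combination ih

theorem U_partial (q : A) (P2 : ℕ → A)
    (h2 : ∀ n, (1 - q ^ (2 * n + 2)) * P2 (n + 1) = P2 n) (r L : ℕ) :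
    Us q P2 r (L + 1) - Us q P2 (r + 1) L
      = (-1) ^ L * (q ^ ((L + 1) ^ 2 + 2 * (r + 1) * (L + 1)) + q ^ (L ^ 2 + 2 * L + 2 * (r + 1) * L))
        * (OO q (r + L + 2) * (P2 L * P2 (L + 2 * r + 3))) := by
  induction L with
  | zero =>
    unfold Us
    rw [sum_range_one, sum_range_zero, show r + 0 + 2 = (r + 1) + 1 by ring, OO_succ q (r + 1)]
    have h' := h2 (2 * r + 2)
    have i0 : 0 + 2 * r + 2 = 2 * r + 2 := by ring
    have i1 : 0 + 2 * r + 3 = 2 * r + 2 + 1 := by ring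
    rw [i0, i1, ← h']
    simp only [pow_zero, add_zero, mul_zero, zero_add, one_mul, mul_one]
    have e1 : q ^ (0 ^ 2 : ℕ) = 1 := by simp
    have e2 : q ^ (1 ^ 2 + 2 * (r + 1)) = q ^ (2 * r + 3) := by congr 1; ring
    have e3 : q ^ (2 * (r + 1) + 1) = q ^ (2 * r + 3) := by congr 1
    have e4 : q ^ (2 * (2 * r + 2) + 2) = q ^ (2 * r + 3) * q ^ (2 * r + 3) := by
      rw [← pow_add]; congr 1; ring
    rw [e1, e2, e3, e4]
    ring
  | succ L ih =>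
    unfold Us at ih ⊢
    rw [sum_range_succ, sum_range_succ (fun s => (-1) ^ s * q ^ (s ^ 2 + 2 * (r + 1 + 1) * s) *
      (OO q (r + 1 + s + 1) * (P2 s * P2 (s + 2 * (r + 1) + 2)))) L]
    have h := h2 L
    have h' := h2 (L + 2 * r + 3)
    have o := OO_succ q (r + L + 2)
    have i1 : r + (L + 1) + 1 = r + L + 2 := by ring
    have i2 : L + 1 + 2 * r + 2 = L + 2 * r + 3 := by ring
    have i3 : r + (L + 1) + 2 = r + L + 2 + 1 := by ring
    have i4 : r + 1 + L + 1 = r + L + 2 := by ring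
    have i5 : L + 2 * (r + 1) + 2 = L + 2 * r + 3 + 1 := by ring
    have i6 : L + 1 + 2 * r + 3 = L + 2 * r + 3 + 1 := by ring
    rw [i1, i2, i3, i4, i5, i6, o]
    obtain ⟨v, hv⟩ : ∃ v : A, v = q ^ (2 * L + 2) := ⟨_, rfl⟩
    obtain ⟨w, hw⟩ : ∃ w : A, w = q ^ (2 * r) := ⟨_, rfl⟩
    obtain ⟨y, hy⟩ : ∃ y : A, y = q ^ (L ^ 2 + 2 * (r + 1) * L) := ⟨_, rfl⟩
    obtain ⟨l, hl⟩ : ∃ l : A, l = q ^ (2 * L) := ⟨_, rfl⟩
    have e0 : v = l * q ^ 2 := by rw [hv, hl, ← pow_add]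
    have e1 : q ^ ((L + 1) ^ 2 + 2 * (r + 1) * (L + 1)) = y * (l * w * q ^ 3) := by
      rw [hy, hl, hw, ← pow_add, ← pow_add, ← pow_add]; congr 1; ring
    have e2 : q ^ (L ^ 2 + 2 * L + 2 * (r + 1) * L) = y * l := by
      rw [hy, hl, ← pow_add]; congr 1; ring
    have e3 : q ^ (L ^ 2 + 2 * (r + 1 + 1) * L) = y * l := by
      rw [hy, hl, ← pow_add]; congr 1; ring
    have e4 : q ^ ((L + 1 + 1) ^ 2 + 2 * (r + 1) * (L + 1 + 1)) = y * (l * w * q ^ 3) * (l * w * q ^ 5) := by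
      rw [hy, hl, hw]; simp only [← pow_add]; congr 1; ring
    have e5 : q ^ ((L + 1) ^ 2 + 2 * (L + 1) + 2 * (r + 1) * (L + 1)) = y * (l * w * q ^ 3) * (l * q ^ 2) := by
      rw [hy, hl, hw]; simp only [← pow_add]; congr 1; ring
    have e6 : q ^ (2 * (r + L + 2) + 1) = l * w * q ^ 5 := by
      rw [hl, hw, ← pow_add, ← pow_add]; congr 1; ring
    have e7 : q ^ (2 * (L + 2 * r + 3) + 2) = l * w ^ 2 * q ^ 8 := by
      rw [hl, hw, ← pow_mul, ← pow_add, ← pow_add]; congr 1; ring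
    have e8 : q ^ (2 * L + 2) = l * q ^ 2 := by rw [← hv, e0]
    rw [e7] at h'
    rw [e8] at h
    rw [e1, e2] at ih
    rw [e1, e3, e4, e5, e6]
    rw [← h, ← h'] at ih
    rw [← h, ← h']
    rw [pow_succ]
    linear_combination ih

theorem Us_stable (q : A) (P2 : ℕ → A) (N : ℕ) (hN : q ^ N = 0) (r L : ℕ) (hL : N ≤ L) :
    Us q P2 r (L + 1) = Us q P2 r L := by
  unfold Us
  rw [sum_range_succ, pow_zero_of_le hN (by nlinarith [Nat.zero_le ((r + 1) * L)])]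
  simp

theorem Us_shift (q : A) (P2 : ℕ → A) (N : ℕ) (hN : q ^ N = 0)
    (h2 : ∀ n, (1 - q ^ (2 * n + 2)) * P2 (n + 1) = P2 n) (r L : ℕ) (hL : N ≤ L) :
    Us q P2 r L = Us q P2 (r + 1) L := by
  have h := U_partial q P2 h2 r L
  rw [Us_stable q P2 N hN r L hL,
    pow_zero_of_le (a := (L + 1) ^ 2 + 2 * (r + 1) * (L + 1)) hN (by nlinarith [Nat.zero_le (r * L)]),
    pow_zero_of_le (a := L ^ 2 + 2 * L + 2 * (r + 1) * L) hN (by nlinarith [Nat.zero_le (r * L)])] at h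
  rw [add_zero, mul_zero, zero_mul] at h
  exact sub_eq_zero.mp h

theorem Us_eq (q : A) (P2 : ℕ → A) (N : ℕ) (hN : q ^ N = 0)
    (h2 : ∀ n, (1 - q ^ (2 * n + 2)) * P2 (n + 1) = P2 n) (r r' L : ℕ) (hL : N ≤ L) :
    Us q P2 r L = Us q P2 (r + r') L := by
  induction r' with
  | zero => rfl
  | succ k ih => rw [ih, Us_shift q P2 N hN h2 _ L hL]; rfl

theorem P2_stable (q : A) (P2 : ℕ → A) (N : ℕ) (hN : q ^ N = 0)
    (h2 : ∀ n, (1 - q ^ (2 * n + 2)) * P2 (n + 1) = P2 n) (n k : ℕ) (hn : N ≤ n) :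
    P2 (n + k) = P2 n := by
  induction k with
  | zero => rfl
  | succ k ih =>
    rw [← ih, ← h2 (n + k), pow_zero_of_le (a := 2 * (n + k) + 2) hN (by omega), sub_zero, one_mul]
    rfl

theorem OO_stable (q : A) (N : ℕ) (hN : q ^ N = 0) (n k : ℕ) (hn : N ≤ n) :
    OO q (n + k) = OO q n := by
  induction k with
  | zero => rfl
  | succ k ih =>
    rw [← ih, ← add_assoc, OO_succ, pow_zero_of_le (a := 2 * (n + k) + 1) hN (by omega), sub_zero, mul_one]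

theorem Us_val (q : A) (P2 : ℕ → A) (N : ℕ) (hN : q ^ N = 0) (h20 : P2 0 = 1)
    (h2 : ∀ n, (1 - q ^ (2 * n + 2)) * P2 (n + 1) = P2 n) (r L : ℕ) (hL : N ≤ L) (hL0 : 0 < L) :
    Us q P2 r L = OO q N * P2 N := by
  rw [Us_eq q P2 N hN h2 r N L hL]
  obtain ⟨L', rfl⟩ : ∃ L', L = L' + 1 := ⟨L - 1, by omega⟩
  unfold Us
  rw [sum_range_succ', sum_eq_zero, zero_add]
  · have e1 : r + N + 0 + 1 = N + (r + 1) := by ring
    have e2 : 0 + 2 * (r + N) + 2 = N + (N + 2 * r + 2) := by ring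
    rw [e1, e2, OO_stable q N hN N _ le_rfl, P2_stable q P2 N hN h2 N _ le_rfl]
    simp [h20]
  · intro s _
    rw [pow_zero_of_le hN (by nlinarith [Nat.zero_le (r * s), Nat.zero_le (N * s)])]
    simp

theorem Ws_val (q : A) (P2 : ℕ → A) (N : ℕ) (hN : q ^ N = 0) (h20 : P2 0 = 1)
    (h2 : ∀ n, (1 - q ^ (2 * n + 2)) * P2 (n + 1) = P2 n) (r L : ℕ) (hL : N ≤ L) :
    Ws q P2 r (L + 1) = (1 + q ^ (2 * r + 2) + q ^ (4 * r + 4)) * (OO q N * P2 N) := by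
  have h := W_partial q P2 h2 r L
  rw [pow_zero_of_le (a := (L + 1) ^ 2 + 2 * r * (L + 1)) hN (by nlinarith [Nat.zero_le (r * L)]),
    Us_val q P2 N hN h20 h2 r (L + 1) (by omega) (by omega), mul_zero, zero_mul] at h
  exact sub_eq_zero.mp h

end ring2

end Pool.Agent.R218.QI
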