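import Mathlib

set_option autoImplicit false

open Finset

namespace Pool.Agent.R218.QI

section star

variable {K : Type*} [Field K]

/-- partial sums of the b-side -/
noncomputable def bK (p : ℤ → K) (g : ℕ → K) (L : ℕ) (n : ℤ) : K :=
  ∑ l ∈ range L, g l * p (n - 2 * l)

/-- partial sums of the R-side -/
noncomputable def RK (q : K) (p : ℤ → K) (M : ℕ) (n : ℤ) : K :=
  ∑ m ∈ range M, (q ^ (15 * m ^ 2 + 7 * m) * (1 - q ^ (6 * m + 2)) * (p (n - 3 * m) * p (n + 3 * m + 2))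
    - q ^ (15 * m ^ 2 + 17 * m + 4) * (1 - q ^ (6 * m + 4)) * (p (n - 3 * m - 1) * p (n + 3 * m + 3)))

/-- the normalising product -/
noncomputable def kk {A : Type*} [CommRing A] (q : A) (n : ℕ) : A :=
  ∏ i ∈ range n, ((1 - q ^ (4 * i + 2)) * (1 + q ^ (2 * i + 2)))

theorem b_term (q : K) (hq0 : q ≠ 0) (p : ℤ → K)
    (hrec : ∀ k : ℤ, (1 - q ^ (2 * k)) * p k = p (k - 1))
    (g : ℕ → K) (hg : ∀ l : ℕ, (1 - q ^ (4 * (l + 1))) * g (l + 1) = q ^ (8 * l + 8) * g l)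
    (n : ℤ) (l : ℕ) :
    (1 - q ^ (2 * n)) * (g l * p (n - 2 * l)) - (1 + q ^ 2 - q ^ (2 * n)) * (g l * p (n - 1 - 2 * l))
      + (q ^ 2 - q ^ (4 * n)) * (g l * p (n - 2 - 2 * l))
    = q ^ (4 * (n - 2 * l)) * (1 - q ^ (4 * l)) * g l * p (n - 2 * l)
      - q ^ (4 * (n - 2 * ((l + 1 : ℕ) : ℤ))) * (1 - q ^ (4 * (l + 1))) * g (l + 1)
        * p (n - 2 * ((l + 1 : ℕ) : ℤ)) := by
  have e1 := hrec (n - 2 * l)
  have e2 := hrec (n - 2 * l - 1)
  set y : K := q ^ (2 * (n - 2 * (l : ℤ))) with hy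
  set t : K := q ^ (4 * l) with ht
  have h1 : q ^ (2 * n) = y * t := by
    rw [hy, ht, ← zpow_natCast, ← zpow_add₀ hq0]
    congr 1
    push_cast
    ring
  have h2 : q ^ (4 * n) = y ^ 2 * t ^ 2 := by
    rw [← mul_pow, ← h1, ← zpow_natCast, ← zpow_mul]
    congr 1
    push_cast
    ring
  have h3 : q ^ (4 * (n - 2 * (l : ℤ))) = y ^ 2 := by
    rw [hy, ← zpow_natCast, ← zpow_mul]
    congr 1
    push_cast
    ring
  have h4 : q ^ (2 * (n - 2 * (l : ℤ) - 1)) * q ^ 2 = y := by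
    rw [hy, ← zpow_natCast, ← zpow_add₀ hq0]
    congr 1
    push_cast
    ring
  have h5 : q ^ (4 * (n - 2 * ((l + 1 : ℕ) : ℤ))) * q ^ (8 * l + 8) = y ^ 2 * t ^ 2 := by
    rw [← h2, ← zpow_natCast, ← zpow_add₀ hq0]
    congr 1
    push_cast
    ring
  have i1 : (n - 1 - 2 * (l : ℤ)) = n - 2 * l - 1 := by ring
  have i2 : (n - 2 - 2 * (l : ℤ)) = n - 2 * l - 1 - 1 := by ring
  have i3 : (n - 2 * ((l + 1 : ℕ) : ℤ)) = n - 2 * l - 1 - 1 := by push_cast; ring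
  rw [i3] at h5 ⊢
  rw [i1, i2, h1, h2, h3]
  have hg' := hg l
  have e2' : (q ^ 2 - y) * p (n - 2 * l - 1) = q ^ 2 * p (n - 2 * l - 1 - 1) := by
    rw [← e2, ← h4]; ring
  have e3 : q ^ (4 * (n - 2 * (l : ℤ) - 1 - 1)) * (1 - q ^ (4 * (l + 1))) * g (l + 1)
        * p (n - 2 * l - 1 - 1) = y ^ 2 * t ^ 2 * g l * p (n - 2 * l - 1 - 1) := by
    calc _ = q ^ (4 * (n - 2 * (l : ℤ) - 1 - 1)) * ((1 - q ^ (4 * (l + 1))) * g (l + 1))
        * p (n - 2 * l - 1 - 1) := by ring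
      _ = _ := by rw [hg', ← h5]; ring
  rw [e3]
  linear_combination g l * (1 + y - y * t) * e1 - g l * e2'

theorem b_rec (q : K) (hq0 : q ≠ 0) (p : ℤ → K) (hneg : ∀ k < 0, p k = 0)
    (hrec : ∀ k : ℤ, (1 - q ^ (2 * k)) * p k = p (k - 1))
    (g : ℕ → K) (hg : ∀ l : ℕ, (1 - q ^ (4 * (l + 1))) * g (l + 1) = q ^ (8 * l + 8) * g l)
    (n : ℤ) (L : ℕ) (hL : n < 2 * L) :
    (1 - q ^ (2 * n)) * bK p g L n - (1 + q ^ 2 - q ^ (2 * n)) * bK p g L (n - 1)
      + (q ^ 2 - q ^ (4 * n)) * bK p g L (n - 2) = 0 := by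
  unfold bK
  rw [mul_sum, mul_sum, mul_sum, ← sum_sub_distrib, ← sum_add_distrib,
    sum_congr rfl (fun l _ => b_term q hq0 p hrec g hg n l), sum_range_sub']
  rw [hneg (n - 2 * (L : ℤ)) (by omega)]
  simp

/-- the operator applied to a single term -/
noncomputable def VK (q : K) (p : ℤ → K) (n r : ℤ) : K :=
  (1 - q ^ (4 * n)) * (1 - q ^ (4 * n + 2)) * (1 + q ^ (2 * n + 2)) * (p (n - r) * p (n + r + 2))
    - (1 + q ^ 2 - q ^ (2 * n)) * (1 + q ^ (2 * n)) * (p (n - 1 - r) * p (n - 1 + r + 2))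
    + q ^ 2 * (p (n - 2 - r) * p (n - 2 + r + 2))

theorem V_term (q : K) (hq0 : q ≠ 0) (p : ℤ → K)
    (hrec : ∀ k : ℤ, (1 - q ^ (2 * k)) * p k = p (k - 1)) (n r : ℤ) :
    (1 - q ^ (2 * r + 2)) * VK q p n r
      = q ^ (4 * n - 4 * r) * (p (n - r) * p (n + r - 1))
        - q ^ (4 * n + 6 * r + 10) * (p (n - r - 3) * p (n + r + 2)) := by
  obtain ⟨u, hu⟩ : ∃ u : K, u = q ^ (2 * n) := ⟨_, rfl⟩
  obtain ⟨x, hx⟩ : ∃ x : K, x = q ^ (2 * r) := ⟨_, rfl⟩
  have hu0 : u ≠ 0 := by rw [hu]; exact zpow_ne_zero _ hq0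
  have hx0 : x ≠ 0 := by rw [hx]; exact zpow_ne_zero _ hq0
  have z : ∀ a b : ℤ, q ^ (a + b) = q ^ a * q ^ b := fun a b => zpow_add₀ hq0 a b
  have f1 : q ^ (4 * n) = u ^ 2 := by
    rw [hu, ← zpow_natCast, ← zpow_mul]; congr 1; push_cast; ring
  have f2 : q ^ (4 * n + 2) = u ^ 2 * q ^ 2 := by rw [z, f1]; norm_cast
  have f3 : q ^ (2 * n + 2) = u * q ^ 2 := by rw [z, ← hu]; norm_cast
  have f4 : q ^ (2 * r + 2) = x * q ^ 2 := by rw [z, ← hx]; norm_cast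
  have f5 : q ^ (4 * n - 4 * r) = u ^ 2 / x ^ 2 := by
    rw [zpow_sub₀ hq0, f1]; congr 1
    rw [hx, ← zpow_natCast, ← zpow_mul]; congr 1; push_cast; ring
  have f6 : q ^ (4 * n + 6 * r + 10) = u ^ 2 * x ^ 3 * q ^ 10 := by
    rw [z, z, f1]; congr 1
    · congr 1
      rw [hx, ← zpow_natCast, ← zpow_mul]; congr 1; push_cast; ring
    · norm_cast
  -- recurrences
  have r1 := hrec (n - r)
  have r2 := hrec (n - r - 1)
  have r3 := hrec (n - r - 2)
  have s1 := hrec (n + r + 2)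
  have s2 := hrec (n + r + 1)
  have s3 := hrec (n + r)
  have g1 : q ^ (2 * (n - r)) = u / x := by
    rw [mul_sub, zpow_sub₀ hq0, ← hu, ← hx]
  have g2 : q ^ (2 * (n - r - 1)) = u / (x * q ^ 2) := by
    rw [mul_sub, zpow_sub₀ hq0, g1, div_div]; norm_cast
  have g3 : q ^ (2 * (n - r - 2)) = u / (x * q ^ 4) := by
    rw [mul_sub, zpow_sub₀ hq0, g1, div_div]; norm_cast
  have g4 : q ^ (2 * (n + r)) = u * x := by
    rw [mul_add, z, ← hu, ← hx]
  have g5 : q ^ (2 * (n + r + 1)) = u * x * q ^ 2 := by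
    rw [mul_add, z, g4]; norm_cast
  have g6 : q ^ (2 * (n + r + 2)) = u * x * q ^ 4 := by
    rw [mul_add, z, g4]; norm_cast
  rw [g1] at r1
  rw [g2] at r2
  rw [g3] at r3
  rw [g6] at s1
  rw [g5] at s2
  rw [g4] at s3
  have a1 : n - r - 1 - 1 = n - r - 2 := by ring
  have a2 : n - r - 2 - 1 = n - r - 3 := by ring
  have a3 : n + r + 2 - 1 = n + r + 1 := by ring
  have a4 : n + r + 1 - 1 = n + r := by ring
  rw [a1] at r2
  rw [a2] at r3
  rw [a3] at s1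
  rw [a4] at s2
  unfold VK
  rw [f1, f2, f3, f4, f5, f6, ← hu]
  have b1 : n - 1 - r = n - r - 1 := by ring
  have b2 : n - 1 + r + 2 = n + r + 1 := by ring
  have b3 : n - 2 - r = n - r - 2 := by ring
  have b4 : n - 2 + r + 2 = n + r := by ring
  rw [b1, b2, b3, b4, ← s3, ← s2, ← s1, ← r3, ← r2, ← r1]
  field_simp
  ring

/-- first telescoping sequence -/
noncomputable def G1 (q : K) (p : ℤ → K) (n : ℤ) (m : ℕ) : K :=
  q ^ (4 * n + 15 * (m : ℤ) ^ 2 - 5 * m) * (p (n - 3 * m) * p (n + 3 * m - 1))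

/-- second telescoping sequence -/
noncomputable def G2 (q : K) (p : ℤ → K) (n : ℤ) (m : ℕ) : K :=
  q ^ (4 * n + 15 * (m : ℤ) ^ 2 + 5 * m) * (p (n - 3 * m - 1) * p (n + 3 * m))

theorem fam1 (q : K) (hq0 : q ≠ 0) (p : ℤ → K)
    (hrec : ∀ k : ℤ, (1 - q ^ (2 * k)) * p k = p (k - 1)) (n : ℤ) (m : ℕ) :
    q ^ (15 * m ^ 2 + 7 * m) * (1 - q ^ (6 * m + 2)) * VK q p n (3 * m)
      = G1 q p n m - G1 q p n (m + 1) := by
  have h := V_term q hq0 p hrec n (3 * m)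
  have e0 : (q : K) ^ (2 * (3 * (m : ℤ)) + 2) = q ^ (6 * m + 2) := by
    rw [← zpow_natCast]; congr 1; push_cast; ring
  rw [e0] at h
  rw [mul_assoc, h, mul_sub]
  unfold G1
  have z : ∀ a b : ℤ, q ^ a * q ^ b = q ^ (a + b) := fun a b => (zpow_add₀ hq0 a b).symm
  congr 1
  · rw [← mul_assoc, ← zpow_natCast, z]
    congr 2
    push_cast; ring
  · rw [← mul_assoc, ← zpow_natCast, z]
    congr 2
    · push_cast; ring
    · congr 1
      push_cast; ring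
    · congr 1
      push_cast; ring

theorem fam2 (q : K) (hq0 : q ≠ 0) (p : ℤ → K)
    (hrec : ∀ k : ℤ, (1 - q ^ (2 * k)) * p k = p (k - 1)) (n : ℤ) (m : ℕ) :
    q ^ (15 * m ^ 2 + 17 * m + 4) * (1 - q ^ (6 * m + 4)) * VK q p n (3 * m + 1)
      = G2 q p n m - G2 q p n (m + 1) := by
  have h := V_term q hq0 p hrec n (3 * m + 1)
  have e0 : (q : K) ^ (2 * (3 * (m : ℤ) + 1) + 2) = q ^ (6 * m + 4) := by
    rw [← zpow_natCast]; congr 1; push_cast; ring
  rw [e0] at h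
  rw [mul_assoc, h, mul_sub]
  unfold G2
  have z : ∀ a b : ℤ, q ^ a * q ^ b = q ^ (a + b) := fun a b => (zpow_add₀ hq0 a b).symm
  congr 1
  · rw [← mul_assoc, ← zpow_natCast, z]
    congr 2
    · push_cast; ring
    · congr 1
      ring
    · congr 1
      ring
  · rw [← mul_assoc, ← zpow_natCast, z]
    congr 2
    · push_cast; ring
    · congr 1
      push_cast; ring
    · congr 1
      push_cast; ring

theorem R_rec (q : K) (hq0 : q ≠ 0) (p : ℤ → K) (hneg : ∀ k < 0, p k = 0)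
    (hrec : ∀ k : ℤ, (1 - q ^ (2 * k)) * p k = p (k - 1)) (n : ℤ) (M : ℕ) (hM : n < 3 * M) :
    (1 - q ^ (4 * n)) * (1 - q ^ (4 * n + 2)) * (1 + q ^ (2 * n + 2)) * RK q p M n
      - (1 + q ^ 2 - q ^ (2 * n)) * (1 + q ^ (2 * n)) * RK q p M (n - 1)
      + q ^ 2 * RK q p M (n - 2) = 0 := by
  have key : (1 - q ^ (4 * n)) * (1 - q ^ (4 * n + 2)) * (1 + q ^ (2 * n + 2)) * RK q p M n
      - (1 + q ^ 2 - q ^ (2 * n)) * (1 + q ^ (2 * n)) * RK q p M (n - 1)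
      + q ^ 2 * RK q p M (n - 2)
      = ∑ m ∈ range M, ((G1 q p n m - G1 q p n (m + 1)) - (G2 q p n m - G2 q p n (m + 1))) := by
    unfold RK
    rw [mul_sum, mul_sum, mul_sum, ← sum_sub_distrib, ← sum_add_distrib]
    apply sum_congr rfl
    intro m _
    rw [← fam1 q hq0 p hrec n m, ← fam2 q hq0 p hrec n m]
    unfold VK
    have a1 : n - (3 * (m : ℤ) + 1) = n - 3 * m - 1 := by ring
    have a2 : n + (3 * (m : ℤ) + 1) + 2 = n + 3 * m + 3 := by ring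
    have a3 : n - 1 - (3 * (m : ℤ) + 1) = n - 1 - 3 * m - 1 := by ring
    have a4 : n - 1 + (3 * (m : ℤ) + 1) + 2 = n - 1 + 3 * m + 3 := by ring
    have a5 : n - 2 - (3 * (m : ℤ) + 1) = n - 2 - 3 * m - 1 := by ring
    have a6 : n - 2 + (3 * (m : ℤ) + 1) + 2 = n - 2 + 3 * m + 3 := by ring
    rw [a1, a2, a3, a4, a5, a6]
    ring
  rw [key, sum_sub_distrib, sum_range_sub', sum_range_sub']
  unfold G1 G2
  rw [hneg (n - 3 * (M : ℤ)) (by omega), hneg (n - 3 * (M : ℤ) - 1) (by omega)]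
  simp
  ring

theorem kk_succ {A : Type*} [CommRing A] (q : A) (n : ℕ) :
    kk q (n + 1) = kk q n * ((1 - q ^ (4 * n + 2)) * (1 + q ^ (2 * n + 2))) := by
  unfold kk
  rw [prod_range_succ]

/-- the finite Rogers-Ramanujan type identity, in a field -/
theorem star_K (q : K) (hq0 : q ≠ 0) (hq : ∀ k : ℕ, 0 < k → (1 : K) - q ^ k ≠ 0)
    (p : ℤ → K) (hneg : ∀ k < 0, p k = 0) (h0 : p 0 = 1)
    (hrec : ∀ k : ℤ, (1 - q ^ (2 * k)) * p k = p (k - 1))
    (g : ℕ → K) (g0 : g 0 = 1)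
    (hg : ∀ l : ℕ, (1 - q ^ (4 * (l + 1))) * g (l + 1) = q ^ (8 * l + 8) * g l)
    (L M : ℕ) (hL0 : 0 < L) (hM0 : 0 < M) :
    ∀ j : ℕ, j ≤ 2 * L → j ≤ 3 * M →
      bK p g L ((j : ℤ) - 1) = kk q j * RK q p M ((j : ℤ) - 1) := by
  intro j
  induction j using Nat.strong_induction_on with
  | _ j ih =>
    intro hjL hjM
    match j with
    | 0 =>
      have e1 : bK p g L (((0 : ℕ) : ℤ) - 1) = 0 := by
        unfold bK
        apply sum_eq_zero
        intro l _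
        rw [hneg _ (by push_cast; omega), mul_zero]
      have e2 : RK q p M (((0 : ℕ) : ℤ) - 1) = 0 := by
        unfold RK
        apply sum_eq_zero
        intro m _
        rw [hneg (((0 : ℕ) : ℤ) - 1 - 3 * m) (by push_cast; omega),
          hneg (((0 : ℕ) : ℤ) - 1 - 3 * m - 1) (by push_cast; omega)]
        ring
      rw [e1, e2, mul_zero]
    | 1 =>
      have c0 : (((1 : ℕ) : ℤ) - 1) = 0 := by norm_num
      rw [c0]
      have e1 : bK p g L 0 = 1 := by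
        unfold bK
        obtain ⟨L', rfl⟩ : ∃ L', L = L' + 1 := ⟨L - 1, by omega⟩
        rw [sum_range_succ']
        rw [sum_eq_zero]
        · simp [g0, h0]
        · intro l _
          rw [hneg _ (by push_cast; omega), mul_zero]
      have p1 := hrec 1
      have p2 := hrec 2
      have e2 : RK q p M 0 = (1 - q ^ 2) * p 2 := by
        unfold RK
        obtain ⟨M', rfl⟩ : ∃ M', M = M' + 1 := ⟨M - 1, by omega⟩
        rw [sum_range_succ']
        rw [sum_eq_zero]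
        · rw [hneg (0 - 3 * ((0 : ℕ) : ℤ) - 1) (by norm_num)]
          norm_num [h0]
        · intro m _
          rw [hneg (0 - 3 * ((m + 1 : ℕ) : ℤ)) (by push_cast; omega),
            hneg (0 - 3 * ((m + 1 : ℕ) : ℤ) - 1) (by push_cast; omega)]
          ring
      rw [e1, e2]
      have d1 : (1 - q ^ 2) * p 1 = 1 := by
        have : (q : K) ^ (2 * (1 : ℤ)) = q ^ 2 := by norm_cast
        rw [this] at p1
        rw [p1]; norm_num [h0]
      have d2 : (1 - q ^ 4) * p 2 = p 1 := by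
        have : (q : K) ^ (2 * (2 : ℤ)) = q ^ 4 := by norm_cast
        rw [this] at p2
        rw [p2]; norm_num
      have d3 : kk q 1 = (1 - q ^ 2) * (1 + q ^ 2) := by
        unfold kk
        simp
      rw [d3]
      linear_combination -d1 - (1 - q ^ 2) * d2
    | (i + 2) =>
      have ih1 := ih (i + 1) (by omega) (by omega) (by omega)
      have ih0 := ih i (by omega) (by omega) (by omega)
      have c1 : (((i + 2 : ℕ) : ℤ) - 1) = (i : ℤ) + 1 := by push_cast; ring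
      have c2 : (((i + 1 : ℕ) : ℤ) - 1) = (i : ℤ) + 1 - 1 := by push_cast; ring
      have c3 : ((i : ℤ) - 1) = (i : ℤ) + 1 - 2 := by ring
      rw [c1]
      rw [c2] at ih1
      rw [c3] at ih0
      have hb := b_rec q hq0 p hneg hrec g hg ((i : ℤ) + 1) L (by omega)
      have hR := R_rec q hq0 p hneg hrec ((i : ℤ) + 1) M (by omega)
      have k1 := kk_succ q (i + 1)
      have k0 := kk_succ q i
      have z1 : (q : K) ^ (2 * ((i : ℤ) + 1)) = q ^ (2 * i + 2) := by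
        rw [← zpow_natCast]; congr 1
      have z2 : (q : K) ^ (4 * ((i : ℤ) + 1)) = (q ^ (2 * i + 2)) ^ 2 := by
        rw [← pow_mul, ← zpow_natCast]; congr 1; push_cast; ring
      have z3 : (q : K) ^ (4 * ((i : ℤ) + 1) + 2) = (q ^ (2 * i + 2)) ^ 2 * q ^ 2 := by
        rw [← pow_mul, ← pow_add, ← zpow_natCast]; congr 1; push_cast; ring
      have z4 : (q : K) ^ (2 * ((i : ℤ) + 1) + 2) = q ^ (2 * i + 2) * q ^ 2 := by
        rw [← pow_add, ← zpow_natCast]; congr 1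
      rw [z1, z2] at hb
      rw [z1, z2, z3, z4] at hR
      have y1 : (q : K) ^ (4 * (i + 1) + 2) = (q ^ (2 * i + 2)) ^ 2 * q ^ 2 := by ring
      have y2 : (q : K) ^ (2 * (i + 1) + 2) = q ^ (2 * i + 2) * q ^ 2 := by ring
      have y3 : (q : K) ^ 2 * q ^ (4 * i + 2) = (q ^ (2 * i + 2)) ^ 2 := by ring
      have hu1 : (1 : K) - q ^ (2 * i + 2) ≠ 0 := hq _ (by omega)
      have hu2 : (1 : K) + q ^ (2 * i + 2) ≠ 0 := by
        have := hq (2 * (2 * i + 2)) (by omega)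
        intro h
        apply this
        have e : (1 : K) - q ^ (2 * (2 * i + 2)) = (1 - q ^ (2 * i + 2)) * (1 + q ^ (2 * i + 2)) := by
          ring
        rw [e, h, mul_zero]
      rw [y1, y2] at k1
      obtain ⟨u, hu⟩ : ∃ u : K, u = q ^ (2 * i + 2) := ⟨_, rfl⟩
      obtain ⟨w, hw⟩ : ∃ w : K, w = q ^ (4 * i + 2) := ⟨_, rfl⟩
      rw [← hu] at hb hR k1 k0 hu1 hu2 y3
      rw [← hw] at k0 y3
      have k1' : kk q (i + 2) = kk q (i + 1) * ((1 - u ^ 2 * q ^ 2) * (1 + u * q ^ 2)) := k1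
      rw [k1']
      apply mul_left_cancel₀ (mul_ne_zero hu1 hu2)
      rw [ih1, ih0] at hb
      linear_combination (1 + u) * hb - kk q (i + 1) * hR
        + (q ^ 2 * RK q p M ((i : ℤ) + 1 - 2)) * k0
        - (1 + u) * RK q p M ((i : ℤ) + 1 - 2) * kk q i * y3

end star

end Pool.Agent.R218.QI
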