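import Mathlib
import Pool.Agent.R218.QI.Ring2
import Pool.Agent.R218.QI.Star

set_option autoImplicit false

open Finset

namespace Pool.Agent.R218.QI

section ring3

variable {A : Type*} [CommRing A]

theorem shift_sum (f : ℕ → A) (P2 : ℕ → A) (pz : ℤ → A) (hneg : ∀ k < 0, pz k = 0)
    (hpz : ∀ n : ℕ, pz n = P2 n) (N L a : ℕ) (hL : N ≤ L) (hf : ∀ n, N ≤ n → f n = 0) :
    ∑ n ∈ range L, f n * pz ((n : ℤ) - a) = ∑ k ∈ range L, f (a + k) * P2 k := by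
  have h1 : ∑ n ∈ range (a + L), f n * pz ((n : ℤ) - a) = ∑ k ∈ range L, f (a + k) * P2 k := by
    rw [sum_range_add, sum_eq_zero, zero_add]
    · apply sum_congr rfl
      intro k _
      have : (((a + k : ℕ) : ℤ) - a) = k := by push_cast; ring
      rw [this, hpz]
    · intro n hn
      rw [mem_range] at hn
      rw [hneg _ (by omega), mul_zero]
  have h2 : ∑ n ∈ range (L + a), f n * pz ((n : ℤ) - a) = ∑ n ∈ range L, f n * pz ((n : ℤ) - a) := by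
    rw [sum_range_add, sum_eq_zero (s := range a), add_zero]
    intro n _
    rw [hf _ (by omega), zero_mul]
  rw [← h2, add_comm L a, h1]

theorem kk_H (q : A) (P1 P2 : ℕ → A) (N : ℕ) (hN : q ^ N = 0)
    (h1 : ∀ n, (1 - q ^ (n + 1)) * P1 (n + 1) = P1 n)
    (h2 : ∀ n, (1 - q ^ (2 * n + 2)) * P2 (n + 1) = P2 n) (L : ℕ) (hL : N ≤ L) (n : ℕ) :
    kk q (n + 1) * hs q P1 P2 (L + 1) (2 * n) (4 * n + 3)
      = (1 + q ^ (2 * n + 1) + q ^ (2 * n + 2)) * OO q (n + 1) * hs q P1 P2 (L + 1) 0 1 := by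
  have h := e_prod q P1 P2 N hN h1 h2 L hL (2 * (n + 1))
  have hk : kk q (n + 1) = OO q (n + 1) * ∏ i ∈ range (2 * (n + 1)), (1 + q ^ (i + 1)) := by
    rw [prod_range_two_mul]
    unfold kk OO
    rw [← prod_mul_distrib]
    apply prod_congr rfl
    intro i _
    have : q ^ (4 * i + 2) = q ^ (2 * i + 1) * q ^ (2 * i + 1) := by rw [← pow_add]; congr 1; ring
    rw [this, show 2 * i + 1 + 1 = 2 * i + 2 by ring]
    ring
  rw [H_eq q P1 P2 N hN h1 h2 L hL n, hk, ← h, show 2 * (n + 1) = 2 * n + 2 by ring]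
  ring

theorem E_prod (q : A) (P1 P2 : ℕ → A) (N : ℕ) (hN : q ^ N = 0) (h10 : P1 0 = 1) (h20 : P2 0 = 1)
    (h1 : ∀ n, (1 - q ^ (n + 1)) * P1 (n + 1) = P1 n)
    (h2 : ∀ n, (1 - q ^ (2 * n + 2)) * P2 (n + 1) = P2 n) (L : ℕ) (hL : N ≤ L) :
    hs q P1 P2 (L + 1) 0 1 = ∏ i ∈ range N, (1 + q ^ (i + 1)) := by
  rw [← e_prod q P1 P2 N hN h1 h2 L hL N,
    hs_large q P1 P2 N hN h10 h20 L N (2 * N + 1) le_rfl (by omega), mul_one]

theorem P2_inv (q : A) (P2 : ℕ → A) (h20 : P2 0 = 1)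
    (h2 : ∀ n, (1 - q ^ (2 * n + 2)) * P2 (n + 1) = P2 n) (n : ℕ) :
    (∏ i ∈ range n, (1 - q ^ (2 * i + 2))) * P2 n = 1 := by
  induction n with
  | zero => simp [h20]
  | succ n ih => rw [prod_range_succ, mul_assoc, h2, ih]

theorem prod_stable (q : A) (N : ℕ) (hN : q ^ N = 0) (c : ℕ → ℕ) (hc : ∀ i, i ≤ c i) (n k : ℕ)
    (hn : N ≤ n) :
    ∏ i ∈ range (n + k), (1 - q ^ (c i)) = ∏ i ∈ range n, (1 - q ^ (c i)) := by
  induction k with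
  | zero => rfl
  | succ k ih =>
    rw [← add_assoc, prod_range_succ, ih,
      pow_zero_of_le (a := c (n + k)) hN (by have := hc (n + k); omega), sub_zero, mul_one]

theorem euler (q : A) (P2 : ℕ → A) (N : ℕ) (hN : q ^ N = 0) (h20 : P2 0 = 1)
    (h2 : ∀ n, (1 - q ^ (2 * n + 2)) * P2 (n + 1) = P2 n) :
    (∏ i ∈ range N, (1 + q ^ (i + 1))) * OO q N = 1 := by
  have a1 : ∏ i ∈ range (N + N), (1 - q ^ (i + 1)) = ∏ i ∈ range N, (1 - q ^ (i + 1)) :=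
    prod_stable q N hN (fun i => i + 1) (fun i => by simp) N N le_rfl
  have a2 : ∏ i ∈ range (2 * N), (1 - q ^ (i + 1))
      = OO q N * ∏ i ∈ range N, (1 - q ^ (2 * i + 2)) := by
    rw [prod_range_two_mul]
    unfold OO
    rw [← prod_mul_distrib]
  have a3 : (∏ i ∈ range N, (1 + q ^ (i + 1))) * ∏ i ∈ range N, (1 - q ^ (i + 1))
      = ∏ i ∈ range N, (1 - q ^ (2 * i + 2)) := by
    rw [← prod_mul_distrib]
    apply prod_congr rfl
    intro i _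
    ring
  have a4 := P2_inv q P2 h20 h2 N
  rw [← two_mul, a2] at a1
  generalize (∏ i ∈ range N, (1 + q ^ (i + 1))) = E at *
  generalize (∏ i ∈ range N, (1 - q ^ (2 * i + 2))) = QQ at *
  generalize (∏ i ∈ range N, (1 - q ^ (i + 1))) = q1 at *
  linear_combination (-(E * OO q N)) * a4 + E * P2 N * a1 + P2 N * a3 + a4

/-- the theta-type sum -/
def theta (q : A) (M : ℕ) : A :=
  ∑ m ∈ range M, (-1) ^ m * (q ^ (24*m^2+7*m) + q ^ (24*m^2+23*m+5) - q ^ (24*m^2+25*m+6) - q ^ (24*m^2+41*m+17))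

/-- the m-sum on the right side of the star identity -/
def RA (q : A) (p : ℤ → A) (M : ℕ) (n : ℤ) : A :=
  ∑ m ∈ range M, (q ^ (15 * m ^ 2 + 7 * m) * (1 - q ^ (6 * m + 2)) * (p (n - 3 * m) * p (n + 3 * m + 2))
    - q ^ (15 * m ^ 2 + 17 * m + 4) * (1 - q ^ (6 * m + 4)) * (p (n - 3 * m - 1) * p (n + 3 * m + 3)))

theorem S_val (q : A) (P2 : ℕ → A) (pz : ℤ → A) (hneg : ∀ k < 0, pz k = 0)
    (hpz : ∀ n : ℕ, pz n = P2 n) (N : ℕ) (hN : q ^ N = 0) (h20 : P2 0 = 1)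
    (h2 : ∀ n, (1 - q ^ (2 * n + 2)) * P2 (n + 1) = P2 n) (r L : ℕ) (hL : N ≤ L) :
    ∑ n ∈ range (L + 1), ((-1) ^ n * q ^ (n ^ 2) * ((1 + q ^ (2 * n + 1) + q ^ (2 * n + 2)) * OO q (n + 1))
      * pz ((n : ℤ) + r + 2)) * pz ((n : ℤ) - r)
      = (-1) ^ r * q ^ (r ^ 2) * ((1 + q ^ (2 * r + 2) + q ^ (4 * r + 4)) * (OO q N * P2 N)) := by
  rw [shift_sum _ P2 pz hneg hpz N (L + 1) r (by omega), ← Ws_val q P2 N hN h20 h2 r L hL]
  · unfold Ws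
    rw [mul_sum]
    apply sum_congr rfl
    intro s _
    have e1 : (((r + s : ℕ) : ℤ) + r + 2) = ((s + 2 * r + 2 : ℕ) : ℤ) := by push_cast; ring
    rw [e1, hpz]
    have e2 : q ^ ((r + s) ^ 2) = q ^ (r ^ 2) * q ^ (s ^ 2 + 2 * r * s) := by
      rw [← pow_add]; congr 1; ring
    rw [e2, pow_add (-1 : A)]
    ring
  · intro n hn
    rw [pow_zero_of_le (a := n ^ 2) hN (by nlinarith)]
    simp

theorem T_val (q : A) (P1 P2 P4 : ℕ → A) (pz : ℤ → A) (hneg : ∀ k < 0, pz k = 0)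
    (hpz : ∀ n : ℕ, pz n = P2 n) (N : ℕ) (hN : q ^ N = 0) (h10 : P1 0 = 1) (h20 : P2 0 = 1)
    (h1 : ∀ n, (1 - q ^ (n + 1)) * P1 (n + 1) = P1 n)
    (h2 : ∀ n, (1 - q ^ (2 * n + 2)) * P2 (n + 1) = P2 n)
    (hstar : ∀ n L M : ℕ, n < L → n < M →
      ∑ l ∈ range L, (q ^ (4 * l ^ 2 + 4 * l) * P4 l) * pz ((n : ℤ) - 2 * l)
        = kk q (n + 1) * RA q pz M n)
    (L : ℕ) (hL : N ≤ L) :
    (∏ i ∈ range N, (1 - q ^ (2 * i + 2))) *
    (∑ k ∈ range (L + 1), ∑ l ∈ range (L + 1), ∑ i ∈ range (L + 1), ∑ j ∈ range (L + 1),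
      q ^ ((i ^ 2 + 2 * j ^ 2 + 2 * i * j + 2 * (k + 2 * l) * i + (4 * (k + 2 * l) + 3) * j)
        + ((k + 2 * l) ^ 2 + (4 * l ^ 2 + 4 * l))) * (-1) ^ k * (P1 i * P2 j * P2 k * P4 l))
      = theta q (L + 1) := by
  -- Step 1
  have s1 : (∑ k ∈ range (L + 1), ∑ l ∈ range (L + 1), ∑ i ∈ range (L + 1), ∑ j ∈ range (L + 1),
      q ^ ((i ^ 2 + 2 * j ^ 2 + 2 * i * j + 2 * (k + 2 * l) * i + (4 * (k + 2 * l) + 3) * j)
        + ((k + 2 * l) ^ 2 + (4 * l ^ 2 + 4 * l))) * (-1) ^ k * (P1 i * P2 j * P2 k * P4 l))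
      = ∑ l ∈ range (L + 1), (q ^ (4 * l ^ 2 + 4 * l) * P4 l) * ∑ k ∈ range (L + 1),
        ((-1) ^ (2 * l + k) * q ^ ((2 * l + k) ^ 2) *
          hs q P1 P2 (L + 1) (2 * (2 * l + k)) (4 * (2 * l + k) + 3)) * P2 k := by
    rw [sum_comm]
    apply sum_congr rfl
    intro l _
    rw [mul_sum]
    apply sum_congr rfl
    intro k _
    unfold hs
    rw [mul_sum, sum_mul, mul_sum]
    apply sum_congr rfl
    intro i _
    rw [mul_sum, sum_mul, mul_sum]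
    apply sum_congr rfl
    intro j _
    have e1 : ((-1 : A)) ^ (2 * l + k) = (-1) ^ k := by
      rw [pow_add, pow_mul]; simp
    have e2 : k + 2 * l = 2 * l + k := by ring
    rw [e1, e2, pow_add q (i ^ 2 + 2 * j ^ 2 + 2 * i * j + 2 * (2 * l + k) * i + (4 * (2 * l + k) + 3) * j),
      pow_add q ((2 * l + k) ^ 2)]
    ring
  -- Step 2
  have s2 : ∀ l : ℕ, ∑ k ∈ range (L + 1),
        ((-1) ^ (2 * l + k) * q ^ ((2 * l + k) ^ 2) *
          hs q P1 P2 (L + 1) (2 * (2 * l + k)) (4 * (2 * l + k) + 3)) * P2 k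
      = ∑ n ∈ range (L + 1), ((-1) ^ n * q ^ (n ^ 2) *
          hs q P1 P2 (L + 1) (2 * n) (4 * n + 3)) * pz ((n : ℤ) - 2 * l) := by
    intro l
    have h := shift_sum (fun n => (-1) ^ n * q ^ (n ^ 2) *
          hs q P1 P2 (L + 1) (2 * n) (4 * n + 3)) P2 pz hneg hpz N (L + 1) (2 * l) (by omega)
      (by
        intro n hn
        rw [pow_zero_of_le (a := n ^ 2) hN (by nlinarith)]
        simp)
    rw [← h]
    apply sum_congr rfl
    intro n _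
    simp
  have s3 : (∑ l ∈ range (L + 1), (q ^ (4 * l ^ 2 + 4 * l) * P4 l) * ∑ k ∈ range (L + 1),
        ((-1) ^ (2 * l + k) * q ^ ((2 * l + k) ^ 2) *
          hs q P1 P2 (L + 1) (2 * (2 * l + k)) (4 * (2 * l + k) + 3)) * P2 k)
      = ∑ n ∈ range (L + 1), ((-1) ^ n * q ^ (n ^ 2) *
          hs q P1 P2 (L + 1) (2 * n) (4 * n + 3)) * (kk q (n + 1) * RA q pz (L + 1) n) := by
    simp_rw [s2, mul_sum]
    rw [sum_comm]
    apply sum_congr rfl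
    intro n hn
    rw [mem_range] at hn
    rw [← hstar n (L + 1) (L + 1) hn hn, mul_sum]
    apply sum_congr rfl
    intro l _
    ring
  have s4 : ∑ n ∈ range (L + 1), ((-1) ^ n * q ^ (n ^ 2) *
          hs q P1 P2 (L + 1) (2 * n) (4 * n + 3)) * (kk q (n + 1) * RA q pz (L + 1) n)
      = hs q P1 P2 (L + 1) 0 1 * ∑ n ∈ range (L + 1), ((-1) ^ n * q ^ (n ^ 2) *
          ((1 + q ^ (2 * n + 1) + q ^ (2 * n + 2)) * OO q (n + 1))) * RA q pz (L + 1) n := by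
    rw [mul_sum]
    apply sum_congr rfl
    intro n _
    have h := kk_H q P1 P2 N hN h1 h2 L hL n
    calc _ = (-1) ^ n * q ^ (n ^ 2) * (kk q (n + 1) * hs q P1 P2 (L + 1) (2 * n) (4 * n + 3))
          * RA q pz (L + 1) n := by ring
      _ = _ := by rw [h]; ring
  have s5 : ∑ n ∈ range (L + 1), ((-1) ^ n * q ^ (n ^ 2) *
          ((1 + q ^ (2 * n + 1) + q ^ (2 * n + 2)) * OO q (n + 1))) * RA q pz (L + 1) n
      = ∑ m ∈ range (L + 1), (q ^ (15 * m ^ 2 + 7 * m) * (1 - q ^ (6 * m + 2)) *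
          ((-1) ^ (3 * m) * q ^ ((3 * m) ^ 2) * ((1 + q ^ (2 * (3 * m) + 2) + q ^ (4 * (3 * m) + 4)) * (OO q N * P2 N)))
        - q ^ (15 * m ^ 2 + 17 * m + 4) * (1 - q ^ (6 * m + 4)) *
          ((-1) ^ (3 * m + 1) * q ^ ((3 * m + 1) ^ 2) * ((1 + q ^ (2 * (3 * m + 1) + 2) + q ^ (4 * (3 * m + 1) + 4)) * (OO q N * P2 N)))) := by
    unfold RA
    simp_rw [mul_sum]
    rw [sum_comm]
    apply sum_congr rfl
    intro m _
    rw [← S_val q P2 pz hneg hpz N hN h20 h2 (3 * m) L hL,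
      ← S_val q P2 pz hneg hpz N hN h20 h2 (3 * m + 1) L hL, mul_sum, mul_sum, ← sum_sub_distrib]
    apply sum_congr rfl
    intro n _
    have i1 : ((n : ℤ) + ((3 * m : ℕ) : ℤ) + 2) = n + 3 * m + 2 := by push_cast; ring
    have i2 : ((n : ℤ) - ((3 * m : ℕ) : ℤ)) = n - 3 * m := by push_cast; ring
    have i3 : ((n : ℤ) + ((3 * m + 1 : ℕ) : ℤ) + 2) = n + 3 * m + 3 := by push_cast; ring
    have i4 : ((n : ℤ) - ((3 * m + 1 : ℕ) : ℤ)) = n - 3 * m - 1 := by push_cast; ring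
    rw [i1, i2, i3, i4]
    ring
  have s6 : ∑ m ∈ range (L + 1), (q ^ (15 * m ^ 2 + 7 * m) * (1 - q ^ (6 * m + 2)) *
          ((-1) ^ (3 * m) * q ^ ((3 * m) ^ 2) * ((1 + q ^ (2 * (3 * m) + 2) + q ^ (4 * (3 * m) + 4)) * (OO q N * P2 N)))
        - q ^ (15 * m ^ 2 + 17 * m + 4) * (1 - q ^ (6 * m + 4)) *
          ((-1) ^ (3 * m + 1) * q ^ ((3 * m + 1) ^ 2) * ((1 + q ^ (2 * (3 * m + 1) + 2) + q ^ (4 * (3 * m + 1) + 4)) * (OO q N * P2 N))))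
      = (OO q N * P2 N) * theta q (L + 1) := by
    unfold theta
    rw [mul_sum]
    apply sum_congr rfl
    intro m _
    have n1 : ((-1 : A)) ^ (3 * m) = (-1) ^ m := by
      rw [pow_mul]; norm_num
    have n2 : ((-1 : A)) ^ (3 * m + 1) = -(-1) ^ m := by
      rw [pow_succ, n1]; ring
    rw [n1, n2]
    obtain ⟨a, ha⟩ : ∃ a : A, a = q ^ (15 * m ^ 2 + 7 * m) := ⟨_, rfl⟩
    obtain ⟨b, hb⟩ : ∃ b : A, b = q ^ (9 * m ^ 2) := ⟨_, rfl⟩
    obtain ⟨x, hx⟩ : ∃ x : A, x = q ^ (2 * m) := ⟨_, rfl⟩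
    have f1 : q ^ (15 * m ^ 2 + 17 * m + 4) = a * x ^ 5 * q ^ 4 := by
      rw [ha, hx, ← pow_mul, ← pow_add, ← pow_add]; congr 1; ring
    have f2 : q ^ (6 * m + 2) = x ^ 3 * q ^ 2 := by
      rw [hx, ← pow_mul, ← pow_add]; congr 1; ring
    have f3 : q ^ (6 * m + 4) = x ^ 3 * q ^ 4 := by
      rw [hx, ← pow_mul, ← pow_add]; congr 1; ring
    have f4 : q ^ ((3 * m) ^ 2) = b := by rw [hb]; congr 1; ring
    have f5 : q ^ ((3 * m + 1) ^ 2) = b * x ^ 3 * q := by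
      rw [hb, hx, ← pow_mul, ← pow_add, ← pow_succ]; congr 1; ring
    have f6 : q ^ (2 * (3 * m) + 2) = x ^ 3 * q ^ 2 := by
      rw [hx, ← pow_mul, ← pow_add]; congr 1; ring
    have f7 : q ^ (4 * (3 * m) + 4) = x ^ 6 * q ^ 4 := by
      rw [hx, ← pow_mul, ← pow_add]; congr 1; ring
    have f8 : q ^ (2 * (3 * m + 1) + 2) = x ^ 3 * q ^ 4 := by
      rw [hx, ← pow_mul, ← pow_add]; congr 1; ring
    have f9 : q ^ (4 * (3 * m + 1) + 4) = x ^ 6 * q ^ 8 := by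
      rw [hx, ← pow_mul, ← pow_add]; congr 1; ring
    have g1 : q ^ (24 * m ^ 2 + 7 * m) = a * b := by
      rw [ha, hb, ← pow_add]; congr 1; ring
    have g2 : q ^ (24 * m ^ 2 + 23 * m + 5) = a * b * x ^ 8 * q ^ 5 := by
      rw [ha, hb, hx, ← pow_mul, ← pow_add, ← pow_add, ← pow_add]; congr 1; ring
    have g3 : q ^ (24 * m ^ 2 + 25 * m + 6) = a * b * x ^ 9 * q ^ 6 := by
      rw [ha, hb, hx, ← pow_mul, ← pow_add, ← pow_add, ← pow_add]; congr 1; ring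
    have g4 : q ^ (24 * m ^ 2 + 41 * m + 17) = a * b * x ^ 17 * q ^ 17 := by
      rw [ha, hb, hx, ← pow_mul, ← pow_add, ← pow_add, ← pow_add]; congr 1; ring
    rw [f1, f2, f3, f4, f5, f6, f7, f8, f9, g1, g2, g3, g4, ← ha]
    ring
  rw [s1, s3, s4, s5, s6, E_prod q P1 P2 N hN h10 h20 h1 h2 L hL]
  have e1 := euler q P2 N hN h20 h2
  have e2 := P2_inv q P2 h20 h2 N
  calc _ = (((∏ i ∈ range N, (1 + q ^ (i + 1))) * OO q N)
        * ((∏ i ∈ range N, (1 - q ^ (2 * i + 2))) * P2 N)) * theta q (L + 1) := by ring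
    _ = _ := by rw [e1, e2]; ring

end ring3

end Pool.Agent.R218.QI
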