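import Mathlib
import Pool.Agent.R218.QI.Ring3

set_option autoImplicit false

open Finset PowerSeries

namespace Pool.Agent.R218.QI

/-- the finite product `(x; p)_n = ∏_{m<n} (1 - x p^m)` of formal power series -/
noncomputable def poch (x p : PowerSeries ℤ) (n : ℕ) : PowerSeries ℤ :=
  ∏ m ∈ range n, (1 - x * p ^ m)

theorem poch_XX (a : ℕ) (n : ℕ) :
    poch (X ^ a) (X ^ a) n = ∏ m ∈ range n, (1 - (X : PowerSeries ℤ) ^ (a * (m + 1))) := by
  unfold poch
  apply prod_congr rfl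
  intro m _
  congr 1
  rw [← pow_mul, ← pow_add]
  congr 1
  ring

theorem isUnit_one_sub (a : ℕ) (ha : 0 < a) : IsUnit (1 - (X : PowerSeries ℤ) ^ a) := by
  rw [PowerSeries.isUnit_iff_constantCoeff]
  simp [ha.ne']

theorem isUnit_poch (a c : ℕ) (ha : 0 < a) (n : ℕ) : IsUnit (poch (X ^ a) (X ^ c) n) := by
  unfold poch
  apply IsUnit.prod_iff.mpr
  intro m _
  rw [← pow_mul, ← pow_add]
  exact isUnit_one_sub _ (by omega)

/-- inverse of `(q^a; q^a)_n` -/
noncomputable def ip (a n : ℕ) : PowerSeries ℤ := Ring.inverse (poch (X ^ a) (X ^ a) n)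

theorem ip_zero (a : ℕ) : ip a 0 = 1 := by
  unfold ip poch
  simp

theorem ip_succ (a : ℕ) (ha : 0 < a) (n : ℕ) :
    (1 - X ^ (a * (n + 1))) * ip a (n + 1) = ip a n := by
  unfold ip
  have h1 : poch (X ^ a) (X ^ a) (n + 1) = poch (X ^ a) (X ^ a) n * (1 - X ^ (a * (n + 1))) := by
    rw [poch_XX, poch_XX, prod_range_succ]
  have u1 := isUnit_poch a a ha (n + 1)
  have u0 := isUnit_poch a a ha n
  apply u0.mul_left_cancel
  rw [Ring.mul_inverse_cancel _ u0, ← mul_assoc, ← h1, Ring.mul_inverse_cancel _ u1]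

/-- integer indexed inverse of `(q^2; q^2)_k` -/
noncomputable def pzR (k : ℤ) : PowerSeries ℤ := if k < 0 then 0 else ip 2 k.toNat

theorem pzR_neg (k : ℤ) (hk : k < 0) : pzR k = 0 := by
  unfold pzR
  rw [if_pos hk]

theorem pzR_nat (n : ℕ) : pzR n = ip 2 n := by
  unfold pzR
  rw [if_neg (by omega)]
  simp

theorem starR (n L M : ℕ) (hL : n < L) (hM : n < M) :
    ∑ l ∈ range L, (X ^ (4 * l ^ 2 + 4 * l) * ip 4 l) * pzR ((n : ℤ) - 2 * l)
      = kk (X : PowerSeries ℤ) (n + 1) * RA (X : PowerSeries ℤ) pzR M n := by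
  let K := FractionRing (PowerSeries ℤ)
  let ι := algebraMap (PowerSeries ℤ) K
  have hinj : Function.Injective ι := IsFractionRing.injective (PowerSeries ℤ) K
  apply hinj
  have hq0 : ι X ≠ 0 := by
    rw [Ne, map_eq_zero_iff ι hinj]
    exact PowerSeries.X_ne_zero
  have hq : ∀ k : ℕ, 0 < k → (1 : K) - (ι X) ^ k ≠ 0 := by
    intro k hk h
    have h' : ι (1 - X ^ k) = 0 := by rw [map_sub, map_pow, map_one]; exact h
    rw [map_eq_zero_iff ι hinj] at h'
    exact (isUnit_one_sub k hk).ne_zero h'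
  have hneg : ∀ k < 0, (fun k => ι (pzR k)) k = 0 := by
    intro k hk
    simp only
    rw [pzR_neg k hk, map_zero]
  have h0 : (fun k => ι (pzR k)) 0 = 1 := by
    simp only
    have : pzR 0 = 1 := by
      have := pzR_nat 0
      rw [ip_zero] at this
      exact_mod_cast this
    rw [this, map_one]
  have hrec : ∀ k : ℤ, (1 - (ι X) ^ (2 * k)) * (fun k => ι (pzR k)) k = (fun k => ι (pzR k)) (k - 1) := by
    intro k
    simp only
    rcases lt_trichotomy k 0 with h | h | h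
    · rw [pzR_neg k h, pzR_neg (k - 1) (by omega), map_zero, mul_zero]
    · subst h
      rw [pzR_neg (0 - 1) (by norm_num)]
      simp
    · obtain ⟨m, rfl⟩ : ∃ m : ℕ, k = ((m + 1 : ℕ) : ℤ) := ⟨(k - 1).toNat, by omega⟩
      have e1 : (((m + 1 : ℕ) : ℤ) - 1) = (m : ℤ) := by push_cast; ring
      rw [e1, pzR_nat, pzR_nat, ← ip_succ 2 (by norm_num) m, map_mul, map_sub, map_one, map_pow]
      congr 2
  have g0 : (fun l => ι (X ^ (4 * l ^ 2 + 4 * l) * ip 4 l)) 0 = 1 := by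
    simp only
    rw [ip_zero]
    simp
  have hg : ∀ l : ℕ, (1 - (ι X) ^ (4 * (l + 1))) * (fun l => ι (X ^ (4 * l ^ 2 + 4 * l) * ip 4 l)) (l + 1)
      = (ι X) ^ (8 * l + 8) * (fun l => ι (X ^ (4 * l ^ 2 + 4 * l) * ip 4 l)) l := by
    intro l
    simp only
    rw [← ip_succ 4 (by norm_num) l]
    have : (X : PowerSeries ℤ) ^ (4 * (l + 1) ^ 2 + 4 * (l + 1)) = X ^ (8 * l + 8) * X ^ (4 * l ^ 2 + 4 * l) := by
      rw [← pow_add]; congr 1; ring
    rw [this]
    simp only [map_mul, map_sub, map_one, map_pow]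
    ring
  have h := star_K (ι X) hq0 hq (fun k => ι (pzR k)) hneg h0 hrec
    (fun l => ι (X ^ (4 * l ^ 2 + 4 * l) * ip 4 l)) g0 hg L M (by omega) (by omega) (n + 1) (by omega) (by omega)
  have e1 : (((n + 1 : ℕ) : ℤ) - 1) = (n : ℤ) := by push_cast; ring
  rw [e1] at h
  unfold bK RK kk at h
  unfold RA kk
  simp only [map_sum, map_mul, map_sub, map_one, map_pow, map_add, map_prod] at h ⊢
  exact h

end Pool.Agent.R218.QI
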