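import Mathlib

/-!
The quintuple product identity at `y = X^5`, base `X^16`, modulo `X^N` (helper91).
-/

set_option autoImplicit false

namespace Pool.Agent.R218.QI

open PowerSeries Finset

namespace Qu

section fin

variable {K : Type*} [Field K]

/-- `(p;p)_n` -/
def PP (p : K) (n : ℕ) : K := ∏ i ∈ range n, (1 - p ^ (i + 1))

/-- the Gaussian binomial -/
def BB (p : K) (n k : ℕ) : K := if k ≤ n then PP p n / (PP p k * PP p (n - k)) else 0

/-- the denominators -/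
def DD (p x : K) (n k : ℕ) : K := ∏ j ∈ range (n + 1), (1 - x ^ 2 * p ^ (k + j))

/-- the summand -/
def ff (p x : K) (n k : ℕ) : K := (1 + x * p ^ k) * BB p n k * (x ^ k * p ^ (k ^ 2)) / DD p x n k

/-- the certificate -/
def hh (p x : K) (n k : ℕ) : K :=
  p ^ (n - k) * BB p n k * (x ^ (k + 1) * p ^ ((k + 1) ^ 2)) / DD p x n (k + 1)

/-- the shifted certificate -/
def hm (p x : K) (n : ℕ) : ℕ → K
  | 0 => 0
  | k + 1 => hh p x n k

variable {p x : K} (hp : ∀ i, p ^ (i + 1) ≠ 1) (hx : ∀ i, x ^ 2 * p ^ i ≠ 1)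

include hp in
lemma PP_ne (n : ℕ) : PP p n ≠ 0 :=
  Finset.prod_ne_zero_iff.2 fun i _ => sub_ne_zero.2 (hp i).symm

include hx in
lemma DD_ne (n k : ℕ) : DD p x n k ≠ 0 :=
  Finset.prod_ne_zero_iff.2 fun j _ => sub_ne_zero.2 (hx (k + j)).symm

lemma PP_succ (n : ℕ) : PP p (n + 1) = PP p n * (1 - p ^ (n + 1)) := Finset.prod_range_succ _ _

lemma DD_last (n k : ℕ) : DD p x (n + 1) k = DD p x n k * (1 - x ^ 2 * p ^ (k + (n + 1))) :=
  Finset.prod_range_succ _ _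

lemma DD_first (n k : ℕ) : DD p x (n + 1) k = DD p x n (k + 1) * (1 - x ^ 2 * p ^ k) := by
  unfold DD
  rw [Finset.prod_range_succ']
  simp only [add_zero]
  congr 1
  refine Finset.prod_congr rfl fun j _ => ?_
  rw [show k + (j + 1) = k + 1 + j by ring]

include hp in
lemma relA (n k : ℕ) (hk : k ≤ n + 1) :
    BB p (n + 1) k * (1 - p ^ (n + 1 - k)) = BB p n k * (1 - p ^ (n + 1)) := by
  rcases Nat.lt_or_ge n k with h | h
  · obtain rfl : k = n + 1 := by omega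
    simp [BB]
  · rw [BB, BB, if_pos hk, if_pos h, show n + 1 - k = (n - k) + 1 by omega, PP_succ, PP_succ]
    have h1 := PP_ne hp k
    have h2 := PP_ne hp (n - k)
    have h3 : (1 - p ^ (n - k + 1)) ≠ 0 := sub_ne_zero.2 (hp _).symm
    field_simp

include hp in
lemma relB (n k : ℕ) (hk : k ≤ n) :
    BB p (n + 1) (k + 1) * (1 - p ^ (k + 1)) = BB p n k * (1 - p ^ (n + 1)) := by
  rw [BB, BB, if_pos (by omega), if_pos hk, show n + 1 - (k + 1) = n - k by omega, PP_succ, PP_succ]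
  have h1 := PP_ne hp k
  have h2 := PP_ne hp (n - k)
  have h3 : (1 - p ^ (k + 1)) ≠ 0 := sub_ne_zero.2 (hp _).symm
  field_simp

include hp hx in
lemma rec_k (n k : ℕ) (hk : k ≤ n + 1) :
    (1 - x * p ^ (n + 1)) * ff p x (n + 1) k = ff p x n k - hh p x n k + hm p x n k := by
  have hab : p ^ (n + 1) = p ^ k * p ^ (n + 1 - k) := by
    rw [← pow_add]; congr 1; omega
  have h0 : 1 - p ^ (n + 1) ≠ 0 := sub_ne_zero.2 (hp _).symm
  have hc : p ^ (n - k) * BB p n k * (x ^ (k + 1) * p ^ ((k + 1) ^ 2))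
      = p ^ (n + 1 - k) * BB p n k * (x * (p ^ k) ^ 2 * (x ^ k * p ^ (k ^ 2))) := by
    rcases Nat.lt_or_ge n k with h | h
    · simp [BB, Nat.not_le.2 h]
    · rw [show n + 1 - k = (n - k) + 1 by omega]; ring
  have hm' : hm p x n k = p ^ (n + 1 - k) * (BB p (n + 1) k * (1 - p ^ k) / (1 - p ^ (n + 1)))
      * (x ^ k * p ^ (k ^ 2)) / DD p x n k := by
    rcases k with _ | k
    · simp [hm]
    · rw [relB hp n k (by omega), mul_div_cancel_right₀ _ h0]
      simp only [hm, hh]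
      rw [show n + 1 - (k + 1) = n - k by omega]
  have hh' : hh p x n k = p ^ (n + 1 - k) * BB p n k * (x * (p ^ k) ^ 2 * (x ^ k * p ^ (k ^ 2)))
      / DD p x n (k + 1) := by
    rw [hh, hc]
  have hD := DD_ne hx (n + 1) k
  have hD1 := DD_ne hx n k
  have hD2 := DD_ne hx n (k + 1)
  have e1 : DD p x n k * (1 - x ^ 2 * (p ^ k) ^ 2 * p ^ (n + 1 - k)) = DD p x (n + 1) k := by
    rw [DD_last]
    congr 2
    rw [show k + (n + 1) = k + (k + (n + 1 - k)) by omega]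
    ring
  have e2 : DD p x n (k + 1) * (1 - x ^ 2 * p ^ k) = DD p x (n + 1) k := (DD_first n k).symm
  have hA := relA hp n k hk
  rw [hm', hh', ff, ff]
  rw [hab] at hA h0 ⊢
  set a := p ^ k
  set b := p ^ (n + 1 - k)
  set T := x ^ k * p ^ (k ^ 2)
  set G := BB p (n + 1) k
  set B1 := BB p n k
  set B2 := G * (1 - a) / (1 - a * b) with hB2
  have hB2' : G * (1 - a) = B2 * (1 - a * b) := by rw [hB2]; field_simp
  have f1 : (1 + x * a) * B1 * T / DD p x n k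
      = (1 + x * a) * B1 * T * (1 - x ^ 2 * a ^ 2 * b) / DD p x (n + 1) k := by
    rw [div_eq_div_iff hD1 hD, ← e1]; ring
  have f2 : b * B1 * (x * a ^ 2 * T) / DD p x n (k + 1)
      = B1 * (b * (x * a ^ 2 * T)) * (1 - x ^ 2 * a) / DD p x (n + 1) k := by
    rw [div_eq_div_iff hD2 hD, ← e2]; ring
  have f3 : b * B2 * T / DD p x n k
      = b * B2 * T * (1 - x ^ 2 * a ^ 2 * b) / DD p x (n + 1) k := by
    rw [div_eq_div_iff hD1 hD, ← e1]; ring
  rw [f1, f2, f3, ← mul_div_assoc, ← sub_div, ← add_div]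
  congr 1
  apply mul_left_cancel₀ h0
  linear_combination (1 + x * a) * T * (1 - x ^ 2 * a ^ 2 * b) * hA
    - b * (x * a ^ 2 * T) * (1 - x ^ 2 * a) * hA + b * T * (1 - x ^ 2 * a ^ 2 * b) * hB2'

include hp hx in
lemma sum_rec (n : ℕ) :
    (1 - x * p ^ (n + 1)) * ∑ k ∈ range (n + 2), ff p x (n + 1) k = ∑ k ∈ range (n + 1), ff p x n k := by
  rw [Finset.mul_sum, Finset.sum_congr rfl fun k hk =>
    rec_k hp hx n k (by have := Finset.mem_range.1 hk; omega)]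
  rw [Finset.sum_add_distrib, Finset.sum_sub_distrib, Finset.sum_range_succ (ff p x n) (n + 1),
    Finset.sum_range_succ (hh p x n) (n + 1), Finset.sum_range_succ' (hm p x n) (n + 1)]
  simp only [hm]
  have h1 : ff p x n (n + 1) = 0 := by simp [ff, BB]
  have h2 : hh p x n (n + 1) = 0 := by simp [hh, BB]
  rw [h1, h2]; ring

include hp hx in
/-- the finite quintuple product identity -/
theorem finite (n : ℕ) :
    (∑ k ∈ range (n + 1), ff p x n k) * ∏ j ∈ range (n + 1), (1 - x * p ^ j) = 1 := by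
  induction n with
  | zero =>
    have h1 := hx 0
    simp only [pow_zero, mul_one] at h1
    have h3 : 1 - x ^ 2 ≠ 0 := sub_ne_zero.2 h1.symm
    simp [ff, BB, PP, DD]
    field_simp
    ring
  | succ n ih =>
    rw [Finset.prod_range_succ]
    rw [← sum_rec hp hx n] at ih
    have h : (∑ k ∈ range (n + 1 + 1), ff p x (n + 1) k) *
        ((∏ j ∈ range (n + 1), (1 - x * p ^ j)) * (1 - x * p ^ (n + 1)))
        = (1 - x * p ^ (n + 1)) * (∑ k ∈ range (n + 2), ff p x (n + 1) k) *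
          ∏ j ∈ range (n + 1), (1 - x * p ^ j) := by
      rw [show n + 1 + 1 = n + 2 from rfl]
      ring
    rw [h, ih]

end fin

section spec

variable {K : Type*} [Field K] {q : K}

/-- `∏_{i<k} (1 - q^{c+16 i})` -/
def poc {R : Type*} [CommRing R] (q : R) (c k : ℕ) : R := ∏ i ∈ range k, (1 - q ^ (c + 16 * i))

lemma poc_succ {R : Type*} [CommRing R] (q : R) (c k : ℕ) :
    poc q c (k + 1) = poc q c k * (1 - q ^ (c + 16 * k)) := Finset.prod_range_succ _ _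

variable (hq : q ≠ 0) (hq1 : ∀ n : ℕ, q ^ (n + 1) ≠ 1)

include hq1 in
lemma poc_ne (c k : ℕ) (hc : 0 < c) : poc q c k ≠ 0 := by
  refine Finset.prod_ne_zero_iff.2 fun i _ => sub_ne_zero.2 ?_
  obtain ⟨d, rfl⟩ : ∃ d, c = d + 1 := ⟨c - 1, by omega⟩
  have := hq1 (d + 16 * i)
  rw [show d + 1 + 16 * i = d + 16 * i + 1 by ring]
  exact this.symm

include hq1 in
lemma zpow_ne_one (z : ℤ) (hz : z ≠ 0) : q ^ z ≠ 1 := by
  rcases lt_trichotomy z 0 with h | h | h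
  · obtain ⟨n, hn⟩ : ∃ n : ℕ, z = -((n : ℤ) + 1) := ⟨(-z - 1).toNat, by omega⟩
    rw [hn, zpow_neg]
    intro h'
    rw [inv_eq_one] at h'
    exact hq1 n (by exact_mod_cast h')
  · exact absurd h hz
  · obtain ⟨n, hn⟩ : ∃ n : ℕ, z = (n : ℤ) + 1 := ⟨(z - 1).toNat, by omega⟩
    rw [hn]
    intro h'
    exact hq1 n (by exact_mod_cast h')

include hq in
lemma neg_part (c c' : ℕ) (hcc : c + c' = 16) (m : ℕ) :
    ∏ j ∈ range m, (1 - q ^ ((c' : ℤ) + 16 * ((j : ℤ) - m))) =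
      (-1) ^ m * q ^ (-((c : ℤ) * m + 8 * m * (m - 1))) * poc q c m := by
  induction m with
  | zero => simp [poc]
  | succ m ih =>
    rw [Finset.prod_range_succ', poc_succ]
    have h1 : ∏ k ∈ range m, (1 - q ^ ((c' : ℤ) + 16 * (((k + 1 : ℕ) : ℤ) - ((m + 1 : ℕ) : ℤ))))
        = ∏ j ∈ range m, (1 - q ^ ((c' : ℤ) + 16 * ((j : ℤ) - m))) := by
      refine Finset.prod_congr rfl fun j _ => ?_
      congr 2
      push_cast; ring
    rw [h1, ih]
    have h2 : (c' : ℤ) + 16 * (((0 : ℕ) : ℤ) - ((m + 1 : ℕ) : ℤ)) = -((c : ℤ) + 16 * m) := by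
      push_cast; omega
    rw [h2]
    have h3 : (1 : K) - q ^ (-((c : ℤ) + 16 * m)) = -(q ^ (-((c : ℤ) + 16 * m)) * (1 - q ^ (c + 16 * m))) := by
      have : q ^ (-((c : ℤ) + 16 * m)) * q ^ (c + 16 * m) = 1 := by
        rw [← zpow_natCast q (c + 16 * m), ← zpow_add₀ hq]
        push_cast
        simp
      linear_combination -this
    rw [h3]
    have h4 : q ^ (-((c : ℤ) * ((m + 1 : ℕ) : ℤ) + 8 * ((m + 1 : ℕ) : ℤ) * (((m + 1 : ℕ) : ℤ) - 1)))
        = q ^ (-((c : ℤ) * m + 8 * m * (m - 1))) * q ^ (-((c : ℤ) + 16 * m)) := by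
      rw [← zpow_add₀ hq]
      congr 1
      push_cast; ring
    rw [h4]
    ring

include hq in
lemma split (c c' : ℕ) (hcc : c + c' = 16) (m l : ℕ) :
    ∏ j ∈ range (m + l), (1 - q ^ ((c' : ℤ) + 16 * ((j : ℤ) - m))) =
      (-1) ^ m * q ^ (-((c : ℤ) * m + 8 * m * (m - 1))) * poc q c m * poc q c' l := by
  rw [Finset.prod_range_add, neg_part hq c c' hcc m]
  congr 1
  refine Finset.prod_congr rfl fun j _ => ?_
  rw [← zpow_natCast q (c' + 16 * j)]
  congr 2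
  push_cast; ring

lemma PP_eq (n : ℕ) : PP (q ^ 16) n = poc q 16 n := by
  refine Finset.prod_congr rfl fun j _ => ?_
  rw [← pow_mul]
  congr 2
  ring

include hq in
lemma DD_eq (M k m : ℕ) (hk : k + m = 2 * M) :
    DD (q ^ 16) (q ^ (5 - 16 * (M : ℤ))) (2 * M) k
      = (-1) ^ m * q ^ (-((6 : ℤ) * m + 8 * m * (m - 1))) * poc q 6 m * poc q 10 (k + 1) := by
  have h := split hq 6 10 (by norm_num) m (k + 1)
  rw [show m + (k + 1) = 2 * M + 1 by omega] at h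
  push_cast at h
  rw [← h]
  refine Finset.prod_congr rfl fun j _ => ?_
  rw [← zpow_natCast (q ^ (5 - 16 * (M : ℤ))) 2, ← zpow_mul, ← pow_mul, ← zpow_natCast q (16 * (k + j)),
    ← zpow_add₀ hq]
  congr 2
  have : (M : ℤ) * 2 = k + m := by exact_mod_cast (by omega : M * 2 = k + m)
  push_cast
  linarith

include hq in
lemma ff_eq (M k m : ℕ) (hk : k + m = 2 * M) :
    ff (q ^ 16) (q ^ (5 - 16 * (M : ℤ))) (2 * M) k
      = (-1) ^ m * q ^ ((5 - 16 * (M : ℤ)) * k + 16 * k ^ 2 + (6 * m + 8 * m * (m - 1)))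
        * (1 + q ^ (5 - 16 * (M : ℤ) + 16 * k)) * poc q 16 (2 * M)
        * ((poc q 16 k)⁻¹ * (poc q 16 m)⁻¹ * (poc q 6 m)⁻¹ * (poc q 10 (k + 1))⁻¹) := by
  rw [ff, DD_eq hq M k m hk, BB, if_pos (by omega), show 2 * M - k = m by omega, PP_eq, PP_eq, PP_eq]
  have h1 : q ^ (5 - 16 * (M : ℤ)) * (q ^ 16) ^ k = q ^ (5 - 16 * (M : ℤ) + 16 * k) := by
    rw [← pow_mul, ← zpow_natCast q (16 * k), ← zpow_add₀ hq]
    push_cast; rfl
  have h2 : (q ^ (5 - 16 * (M : ℤ))) ^ k * (q ^ 16) ^ k ^ 2 = q ^ ((5 - 16 * (M : ℤ)) * k + 16 * k ^ 2) := by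
    rw [← pow_mul, ← zpow_natCast (q ^ (5 - 16 * (M : ℤ))) k, ← zpow_mul, ← zpow_natCast q (16 * k ^ 2),
      ← zpow_add₀ hq]
    push_cast; rfl
  rw [h1, h2, zpow_neg, zpow_add₀ hq ((5 - 16 * (M : ℤ)) * k + 16 * k ^ 2)]
  have h3 : ((-1 : K) ^ m)⁻¹ = (-1) ^ m := by
    rw [← inv_pow]; norm_num
  rw [div_eq_mul_inv, div_eq_mul_inv, mul_inv, mul_inv, mul_inv, mul_inv, inv_inv, h3]
  ring

include hq in
lemma prod_eq (M : ℕ) :
    ∏ j ∈ range (2 * M + 1), (1 - q ^ (5 - 16 * (M : ℤ)) * (q ^ 16) ^ j)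
      = (-1) ^ M * q ^ (-((11 : ℤ) * M + 8 * M * (M - 1))) * poc q 11 M * poc q 5 (M + 1) := by
  have h := split hq 11 5 (by norm_num) M (M + 1)
  rw [show M + (M + 1) = 2 * M + 1 by omega] at h
  push_cast at h
  rw [← h]
  refine Finset.prod_congr rfl fun j _ => ?_
  rw [← pow_mul, ← zpow_natCast q (16 * j), ← zpow_add₀ hq]
  congr 2
  push_cast
  ring

include hq hq1 in
lemma fin_spec (M : ℕ) :
    (∑ k ∈ range (2 * M + 1), ff (q ^ 16) (q ^ (5 - 16 * (M : ℤ))) (2 * M) k) *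
      ((-1) ^ M * q ^ (-((11 : ℤ) * M + 8 * M * (M - 1))) * poc q 11 M * poc q 5 (M + 1)) = 1 := by
  rw [← prod_eq hq M]
  refine finite (fun i => ?_) (fun i => ?_) (2 * M)
  · rw [← pow_mul, show 16 * (i + 1) = (16 * i + 15) + 1 by ring]
    exact hq1 _
  · rw [← zpow_natCast (q ^ (5 - 16 * (M : ℤ))) 2, ← zpow_mul, ← pow_mul, ← zpow_natCast q (16 * i),
      ← zpow_add₀ hq]
    apply zpow_ne_one hq1
    push_cast
    omega

include hq in
lemma term1 (M j : ℕ) (hj : j ≤ M) :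
    ff (q ^ 16) (q ^ (5 - 16 * (M : ℤ))) (2 * M) (M + j)
      = (-1) ^ M * q ^ (8 * (M : ℤ) ^ 2 + 3 * M) * ((-1) ^ j * (q ^ (24 * j ^ 2 + 7 * j) * (1 + q ^ (16 * j + 5)))
        * poc q 16 (2 * M)
        * ((poc q 16 (M + j))⁻¹ * (poc q 16 (M - j))⁻¹ * (poc q 6 (M - j))⁻¹ * (poc q 10 (M + j + 1))⁻¹)) := by
  obtain ⟨m, hm⟩ : ∃ m, M = j + m := ⟨M - j, by omega⟩
  rw [ff_eq hq M (M + j) m (by omega), show M - j = m by omega]
  have h1 : ((-1 : K)) ^ M * (-1) ^ j = (-1) ^ m := by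
    rw [hm, pow_add, mul_assoc, mul_comm ((-1 : K) ^ m), ← mul_assoc, ← pow_add, Even.neg_one_pow ⟨j, rfl⟩,
      one_mul]
  have h2 : q ^ ((5 - 16 * (M : ℤ)) * ((M + j : ℕ) : ℤ) + 16 * ((M + j : ℕ) : ℤ) ^ 2 + (6 * m + 8 * m * (m - 1)))
      = q ^ (8 * (M : ℤ) ^ 2 + 3 * M) * q ^ (24 * j ^ 2 + 7 * j) := by
    rw [← zpow_natCast q (24 * j ^ 2 + 7 * j), ← zpow_add₀ hq]
    congr 1
    rw [hm]; push_cast; ring
  have h3 : q ^ (5 - 16 * (M : ℤ) + 16 * ((M + j : ℕ) : ℤ)) = q ^ (16 * j + 5) := by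
    rw [← zpow_natCast q (16 * j + 5)]
    congr 1
    push_cast; ring
  rw [h2, h3, ← h1]
  ring

include hq in
lemma term2 (M j : ℕ) (hj : j < M) :
    ff (q ^ 16) (q ^ (5 - 16 * (M : ℤ))) (2 * M) (M - 1 - j)
      = -((-1) ^ M * q ^ (8 * (M : ℤ) ^ 2 + 3 * M) * ((-1) ^ j * (q ^ (24 * j ^ 2 + 41 * j + 17) + q ^ (24 * j ^ 2 + 25 * j + 6))
        * poc q 16 (2 * M)
        * ((poc q 16 (M - 1 - j))⁻¹ * (poc q 16 (M + 1 + j))⁻¹ * (poc q 6 (M + 1 + j))⁻¹
          * (poc q 10 (M - 1 - j + 1))⁻¹))) := by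
  obtain ⟨k, hk⟩ : ∃ k, M = k + 1 + j := ⟨M - 1 - j, by omega⟩
  rw [show M - 1 - j = k by omega, ff_eq hq M k (M + 1 + j) (by omega)]
  have h1 : ((-1 : K)) ^ (M + 1 + j) = -((-1) ^ M * (-1) ^ j) := by
    rw [pow_add, pow_succ]; ring
  have h2 : q ^ ((5 - 16 * (M : ℤ)) * (k : ℤ) + 16 * (k : ℤ) ^ 2 + (6 * ((M + 1 + j : ℕ) : ℤ) + 8 * ((M + 1 + j : ℕ) : ℤ) * (((M + 1 + j : ℕ) : ℤ) - 1)))
        * (1 + q ^ (5 - 16 * (M : ℤ) + 16 * (k : ℤ)))
      = q ^ (8 * (M : ℤ) ^ 2 + 3 * M) * (q ^ (24 * j ^ 2 + 41 * j + 17) + q ^ (24 * j ^ 2 + 25 * j + 6)) := by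
    rw [← zpow_natCast q (24 * j ^ 2 + 41 * j + 17), ← zpow_natCast q (24 * j ^ 2 + 25 * j + 6), mul_add, mul_add,
      ← zpow_add₀ hq, ← zpow_add₀ hq, ← zpow_add₀ hq, mul_one]
    congr 2
    · rw [hk]; push_cast; ring
    · rw [hk]; push_cast; ring
  rw [h1]
  linear_combination (-((-1) ^ M * (-1) ^ j) * poc q 16 (2 * M) * ((poc q 16 k)⁻¹ * (poc q 16 (M + 1 + j))⁻¹ * (poc q 6 (M + 1 + j))⁻¹
          * (poc q 10 (k + 1))⁻¹)) * h2

include hq hq1 in
/-- the specialised finite identity in the field -/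
lemma EM (M : ℕ) :
    (∑ j ∈ range (M + 1), (-1) ^ j * (q ^ (24 * j ^ 2 + 7 * j) * (1 + q ^ (16 * j + 5)))
        * poc q 16 (2 * M)
        * ((poc q 16 (M + j))⁻¹ * (poc q 16 (M - j))⁻¹ * (poc q 6 (M - j))⁻¹ * (poc q 10 (M + j + 1))⁻¹))
      - (∑ j ∈ range M, (-1) ^ j * (q ^ (24 * j ^ 2 + 41 * j + 17) + q ^ (24 * j ^ 2 + 25 * j + 6))
        * poc q 16 (2 * M)
        * ((poc q 16 (M - 1 - j))⁻¹ * (poc q 16 (M + 1 + j))⁻¹ * (poc q 6 (M + 1 + j))⁻¹
          * (poc q 10 (M - 1 - j + 1))⁻¹))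
    = (poc q 11 M)⁻¹ * (poc q 5 (M + 1))⁻¹ := by
  have h := fin_spec hq hq1 M
  rw [show 2 * M + 1 = M + (M + 1) by ring, Finset.sum_range_add, ← Finset.sum_range_reflect,
    Finset.sum_congr rfl fun j hj => term2 hq M j (Finset.mem_range.1 hj),
    Finset.sum_congr rfl fun j hj => term1 hq M j (by have := Finset.mem_range.1 hj; omega),
    Finset.sum_neg_distrib, ← Finset.mul_sum, ← Finset.mul_sum] at h
  have h11 : poc q 11 M ≠ 0 := poc_ne hq1 _ _ (by norm_num)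
  have h5 : poc q 5 (M + 1) ≠ 0 := poc_ne hq1 _ _ (by norm_num)
  rw [← mul_inv]
  apply eq_inv_of_mul_eq_one_left
  have hs : ((-1 : K) ^ M) * (-1) ^ M = 1 := by rw [← pow_add, Even.neg_one_pow ⟨M, rfl⟩]
  have hz : q ^ (8 * (M : ℤ) ^ 2 + 3 * M) * q ^ (-((11 : ℤ) * M + 8 * M * (M - 1))) = 1 := by
    rw [← zpow_add₀ hq]
    convert zpow_zero q using 2
    ring
  set A := ∑ j ∈ range (M + 1), (-1) ^ j * (q ^ (24 * j ^ 2 + 7 * j) * (1 + q ^ (16 * j + 5)))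
        * poc q 16 (2 * M)
        * ((poc q 16 (M + j))⁻¹ * (poc q 16 (M - j))⁻¹ * (poc q 6 (M - j))⁻¹ * (poc q 10 (M + j + 1))⁻¹)
  set B := ∑ j ∈ range M, (-1) ^ j * (q ^ (24 * j ^ 2 + 41 * j + 17) + q ^ (24 * j ^ 2 + 25 * j + 6))
        * poc q 16 (2 * M)
        * ((poc q 16 (M - 1 - j))⁻¹ * (poc q 16 (M + 1 + j))⁻¹ * (poc q 6 (M + 1 + j))⁻¹
          * (poc q 10 (M - 1 - j + 1))⁻¹)
  set u := q ^ (8 * (M : ℤ) ^ 2 + 3 * M)
  set v := q ^ (-((11 : ℤ) * M + 8 * M * (M - 1)))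
  linear_combination h - ((A - B) * poc q 11 M * poc q 5 (M + 1) * (u * v)) * hs
    - (A - B) * poc q 11 M * poc q 5 (M + 1) * hz

end spec

section ps

/-- the inverse of `poc X c k` -/
noncomputable def Rr (c k : ℕ) : PowerSeries ℤ := invOfUnit (poc (X : PowerSeries ℤ) c k) 1

lemma poc_map {R S : Type*} [CommRing R] [CommRing S] (f : R →+* S) (q : R) (c k : ℕ) :
    f (poc q c k) = poc (f q) c k := by
  simp [poc, map_prod]

lemma poc_const (c k : ℕ) (hc : 0 < c) : constantCoeff (poc (X : PowerSeries ℤ) c k) = 1 := by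
  rw [poc_map]
  refine Finset.prod_eq_one fun i _ => ?_
  simp [show c ≠ 0 by omega]

lemma poc_mul_Rr (c k : ℕ) (hc : 0 < c) : poc (X : PowerSeries ℤ) c k * Rr c k = 1 :=
  PowerSeries.mul_invOfUnit _ _ (by simp [poc_const c k hc])

lemma EMZ (M : ℕ) :
    (∑ j ∈ range (M + 1), (-1) ^ j * ((X : PowerSeries ℤ) ^ (24 * j ^ 2 + 7 * j) * (1 + X ^ (16 * j + 5)))
        * poc X 16 (2 * M)
        * (Rr 16 (M + j) * Rr 16 (M - j) * Rr 6 (M - j) * Rr 10 (M + j + 1)))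
      - (∑ j ∈ range M, (-1) ^ j * (X ^ (24 * j ^ 2 + 41 * j + 17) + X ^ (24 * j ^ 2 + 25 * j + 6))
        * poc X 16 (2 * M)
        * (Rr 16 (M - 1 - j) * Rr 16 (M + 1 + j) * Rr 6 (M + 1 + j) * Rr 10 (M - 1 - j + 1)))
    = Rr 11 M * Rr 5 (M + 1) := by
  have inj : Function.Injective (algebraMap (PowerSeries ℤ) (FractionRing (PowerSeries ℤ))) :=
    IsFractionRing.injective _ _
  set F := algebraMap (PowerSeries ℤ) (FractionRing (PowerSeries ℤ)) with hF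
  apply inj
  have hR : ∀ c k, 0 < c → F (Rr c k) = (poc (F X) c k)⁻¹ := by
    intro c k hc
    apply eq_inv_of_mul_eq_one_right
    rw [← poc_map, ← map_mul, poc_mul_Rr c k hc, map_one]
  have hq : F X ≠ 0 := by
    intro h
    rw [← map_zero F] at h
    exact PowerSeries.X_ne_zero (inj h)
  have hq1 : ∀ n : ℕ, (F X) ^ (n + 1) ≠ 1 := by
    intro n h
    rw [← map_pow, ← map_one F] at h
    have := congrArg (constantCoeff (R := ℤ)) (inj h)
    simp at this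
  have h := EM hq hq1 M
  simp only [map_sub, map_sum, map_mul, map_pow, map_neg, map_one, map_add, poc_map,
    hR 16 _ (by norm_num), hR 6 _ (by norm_num), hR 10 _ (by norm_num), hR 11 _ (by norm_num),
    hR 5 _ (by norm_num)]
  exact h

variable {A : Type*} [CommRing A]

lemma sum_trunc {N M : ℕ} (f : ℕ → A) (hf : ∀ m, N ≤ m → f m = 0) (hM : N ≤ M) :
    ∑ m ∈ range M, f m = ∑ m ∈ range N, f m := by
  symm
  refine Finset.sum_subset (Finset.range_subset_range.2 hM) fun m _ hm => hf m ?_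
  simpa using hm

lemma poc_trunc {N k : ℕ} (x : A) (hx : ∀ e, N ≤ e → x ^ e = 0) (c : ℕ) (hk : N ≤ k) :
    poc x c k = poc x c N := by
  symm
  refine Finset.prod_subset (Finset.range_subset_range.2 hk) fun m _ hm => ?_
  rw [hx, sub_zero]
  have : N ≤ m := by simpa using hm
  omega

end ps

end Qu

open Qu in
theorem quint (N L M : ℕ) (hL : N ≤ L) (hM : N ≤ M) :
    (X : PowerSeries ℤ) ^ N ∣
      (∑ m ∈ range M, (-1) ^ m * (X ^ (24*m^2+7*m) + X ^ (24*m^2+23*m+5) - X ^ (24*m^2+25*m+6) - X ^ (24*m^2+41*m+17)))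
        * ((∏ m ∈ range L, (1 - X ^ (16*m+11))) * (∏ m ∈ range L, (1 - X ^ (16*m+5))))
      - (∏ m ∈ range L, (1 - X ^ (16*m+16))) * (∏ m ∈ range L, (1 - X ^ (16*m+6))) * (∏ m ∈ range L, (1 - X ^ (16*m+10))) := by
  rw [← Ideal.mem_span_singleton, ← Ideal.Quotient.eq_zero_iff_mem]
  set φ := Ideal.Quotient.mk (Ideal.span {(X : PowerSeries ℤ) ^ N}) with hφ
  set x := φ X with hxdef
  have hx : ∀ e, N ≤ e → x ^ e = 0 := by
    intro e he
    rw [hxdef, ← map_pow, hφ, Ideal.Quotient.eq_zero_iff_mem, Ideal.mem_span_singleton]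
    exact pow_dvd_pow _ he
  have hP : ∀ c k, φ (∏ m ∈ range k, (1 - X ^ (16 * m + c))) = poc x c k := by
    intro c k
    rw [map_prod]
    refine Finset.prod_congr rfl fun m _ => ?_
    rw [map_sub, map_one, map_pow, add_comm]
  have hr1 : ∀ c k, 0 < c → poc x c k * φ (Rr c k) = 1 := by
    intro c k hc
    rw [hxdef, ← poc_map, ← map_mul, poc_mul_Rr c k hc, map_one]
  have hr : ∀ c k, 0 < c → N ≤ k → φ (Rr c k) = φ (Rr c N) := by
    intro c k hc hk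
    have h1 := hr1 c k hc
    have h2 := hr1 c N hc
    rw [poc_trunc x hx c hk] at h1
    linear_combination (-φ (Rr c k)) * h2 + φ (Rr c N) * h1
  have hE := congrArg φ (EMZ (2 * N))
  simp only [map_sub, map_sum, map_mul, map_pow, map_neg, map_one, map_add, poc_map, ← hxdef] at hE
  rw [sum_trunc (N := N) (M := 2 * N + 1) _ (fun m hm => by
      rw [hx (24 * m ^ 2 + 7 * m) (by nlinarith)]; ring) (by omega),
    sum_trunc (N := N) (M := 2 * N) _ (fun m hm => by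
      rw [hx (24 * m ^ 2 + 41 * m + 17) (by nlinarith), hx (24 * m ^ 2 + 25 * m + 6) (by nlinarith)]; ring) (by omega),
    ← Finset.sum_sub_distrib] at hE
  set T := ∑ m ∈ range N, (-1) ^ m * (x ^ (24*m^2+7*m) + x ^ (24*m^2+23*m+5) - x ^ (24*m^2+25*m+6) - x ^ (24*m^2+41*m+17)) with hT
  have hE2 : T * (poc x 16 N * (φ (Rr 16 N) * φ (Rr 16 N) * φ (Rr 6 N) * φ (Rr 10 N)))
      = φ (Rr 11 N) * φ (Rr 5 N) := by
    rw [hr 11 (2 * N) (by norm_num) (by omega), hr 5 (2 * N + 1) (by norm_num) (by omega)] at hE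
    rw [← hE, hT, Finset.sum_mul]
    refine Finset.sum_congr rfl fun j hj => ?_
    have hj' := Finset.mem_range.1 hj
    rw [poc_trunc x hx 16 (by omega : N ≤ 2 * (2 * N)),
      hr 16 (2 * N + j) (by norm_num) (by omega), hr 16 (2 * N - j) (by norm_num) (by omega),
      hr 6 (2 * N - j) (by norm_num) (by omega), hr 10 (2 * N + j + 1) (by norm_num) (by omega),
      hr 16 (2 * N - 1 - j) (by norm_num) (by omega), hr 16 (2 * N + 1 + j) (by norm_num) (by omega),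
      hr 6 (2 * N + 1 + j) (by norm_num) (by omega), hr 10 (2 * N - 1 - j + 1) (by norm_num) (by omega)]
    ring
  rw [map_sub, map_mul, map_mul, map_mul, map_mul, hP, hP, hP, hP, hP]
  have hS : φ (∑ m ∈ range M, (-1) ^ m * (X ^ (24*m^2+7*m) + X ^ (24*m^2+23*m+5) - X ^ (24*m^2+25*m+6) - X ^ (24*m^2+41*m+17))) = T := by
    rw [map_sum, hT, ← sum_trunc (N := N) (M := M) _ (fun m hm => ?_) hM]
    · refine Finset.sum_congr rfl fun m _ => ?_
      simp only [map_sub, map_mul, map_pow, map_neg, map_one, map_add, ← hxdef]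
    · rw [hx (24 * m ^ 2 + 7 * m) (by nlinarith), hx (24 * m ^ 2 + 23 * m + 5) (by nlinarith),
        hx (24 * m ^ 2 + 41 * m + 17) (by nlinarith), hx (24 * m ^ 2 + 25 * m + 6) (by nlinarith)]
      ring
  rw [hS, poc_trunc x hx 11 hL, poc_trunc x hx 5 hL, poc_trunc x hx 16 hL, poc_trunc x hx 6 hL,
    poc_trunc x hx 10 hL]
  have h16 := hr1 16 N (by norm_num)
  have h6 := hr1 6 N (by norm_num)
  have h10 := hr1 10 N (by norm_num)
  have h11 := hr1 11 N (by norm_num)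
  have h5 := hr1 5 N (by norm_num)
  generalize poc x 16 N = p16 at *
  generalize poc x 6 N = p6 at *
  generalize poc x 10 N = p10 at *
  generalize poc x 11 N = p11 at *
  generalize poc x 5 N = p5 at *
  generalize φ (Rr 16 N) = r16 at *
  generalize φ (Rr 6 N) = r6 at *
  generalize φ (Rr 10 N) = r10 at *
  generalize φ (Rr 11 N) = r11 at *
  generalize φ (Rr 5 N) = r5 at *
  have e1 : T * (p11 * p5) = T * (p11 * p5) * ((p16 * r16) * (p16 * r16) * (p6 * r6) * (p10 * r10)) := by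
    rw [h16, h6, h10]; ring
  have e2 : T * (p11 * p5) * ((p16 * r16) * (p16 * r16) * (p6 * r6) * (p10 * r10))
      = (T * (p16 * (r16 * r16 * r6 * r10))) * (p11 * p5 * p16 * p6 * p10) := by ring
  have e3 : r11 * r5 * (p11 * p5 * p16 * p6 * p10) = (p11 * r11) * (p5 * r5) * (p16 * p6 * p10) := by ring
  rw [e1, e2, hE2, e3, h11, h5]
  ring

end Pool.Agent.R218.QI
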