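import Mathlib
import Pool.Agent.R218.QI.Lift
import Pool.Agent.R218.QI.Quint

set_option autoImplicit false

open Finset PowerSeries Filter
open scoped PowerSeries.WithPiTopology

namespace Pool.Agent.R218.QI

/-- the infinite product `(x; p)_∞` -/
noncomputable def pochInf (x p : PowerSeries ℤ) : PowerSeries ℤ := ∏' m : ℕ, (1 - x * p ^ m)

/-- `[q^a; q^c]_∞ = (q^a; q^c)_∞ (q^{c-a}; q^c)_∞` -/
noncomputable def brInf (a c : ℕ) : PowerSeries ℤ :=
  pochInf (X ^ a) (X ^ c) * pochInf (X ^ (c - a)) (X ^ c)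

/-- the exponent `E(i,j,k,l)` -/
def EE (i j k l : ℕ) : ℕ :=
  2 * i.choose 2 + 4 * j.choose 2 + 2 * k.choose 2 + 16 * l.choose 2
    + 2 * i * j + 2 * i * k + 4 * i * l + 4 * j * k + 8 * j * l + 4 * k * l

/-- the denominator of the summand of `F_3` -/
noncomputable def den (x : ℕ × ℕ × ℕ × ℕ) : PowerSeries ℤ :=
  poch X X x.1 * poch (X ^ 2) (X ^ 2) x.2.1 * poch (X ^ 2) (X ^ 2) x.2.2.1 *
    poch (X ^ 4) (X ^ 4) x.2.2.2

/-- the summand of `F_3(a,b,c,d)`, indexed by `(i,j,k,l)` -/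
noncomputable def summand (a b c d : ℕ) (x : ℕ × ℕ × ℕ × ℕ) : PowerSeries ℤ :=
  X ^ (EE x.1 x.2.1 x.2.2.1 x.2.2.2 + a * x.1 + b * x.2.1 + c * x.2.2.1 + d * x.2.2.2)
    * Ring.inverse (den x) * (-1) ^ x.2.2.1

/-- `F_3(a,b,c,d)` -/
noncomputable def F3 (a b c d : ℕ) : PowerSeries ℤ := ∑' x : ℕ × ℕ × ℕ × ℕ, summand a b c d x

/-- the product `χ(Λ_r)` -/
noncomputable def chi (r : ℕ) : PowerSeries ℤ :=
  pochInf (X ^ 16) (X ^ 16) * brInf (2 * r) 16 *
    Ring.inverse (pochInf (X ^ 2) (X ^ 2) * brInf r 16)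

/-- quotient map modulo `X^N` -/
noncomputable abbrev qm (N : ℕ) : PowerSeries ℤ →+* PowerSeries ℤ ⧸ Ideal.span {(X : PowerSeries ℤ) ^ N} :=
  Ideal.Quotient.mk (Ideal.span {(X : PowerSeries ℤ) ^ N})

theorem qm_eq_iff (N : ℕ) (f g : PowerSeries ℤ) :
    qm N f = qm N g ↔ ∀ n < N, coeff n f = coeff n g := by
  rw [Ideal.Quotient.eq, Ideal.mem_span_singleton, X_pow_dvd_iff]
  simp only [map_sub, sub_eq_zero]

theorem qm_X_pow (N : ℕ) : (qm N X) ^ N = 0 := by
  rw [← map_pow, Ideal.Quotient.eq_zero_iff_mem]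
  exact Ideal.mem_span_singleton_self _

theorem eq_of_qm (f g : PowerSeries ℤ) (h : ∀ N, qm N f = qm N g) : f = g := by
  ext n
  exact (qm_eq_iff (n + 1) f g).mp (h (n + 1)) n (by omega)

theorem choose_two (n : ℕ) : 2 * n.choose 2 + n = n ^ 2 := by
  induction n with
  | zero => simp
  | succ n ih =>
    rw [Nat.choose_succ_succ' n 1, Nat.choose_one_right]
    nlinarith [ih]

theorem exponent_eq (i j k l : ℕ) :
    EE i j k l + 1 * i + 5 * j + 1 * k + 12 * l
      = (i ^ 2 + 2 * j ^ 2 + 2 * i * j + 2 * (k + 2 * l) * i + (4 * (k + 2 * l) + 3) * j)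
        + ((k + 2 * l) ^ 2 + (4 * l ^ 2 + 4 * l)) := by
  unfold EE
  have h1 := choose_two i
  have h2 := choose_two j
  have h3 := choose_two k
  have h4 := choose_two l
  nlinarith [h1, h2, h3, h4]

theorem exponent_large (i j k l d : ℕ) (h : d ≤ i ∨ d ≤ j ∨ d ≤ k ∨ d ≤ l) :
    d ≤ EE i j k l + 1 * i + 5 * j + 1 * k + 12 * l := by
  unfold EE
  rcases h with h | h | h | h <;> omega

theorem den_unit (x : ℕ × ℕ × ℕ × ℕ) : IsUnit (den x) := by
  unfold den
  have h1 : IsUnit (poch X X x.1) := by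
    have := isUnit_poch 1 1 (by norm_num) x.1
    rwa [pow_one] at this
  exact ((h1.mul (isUnit_poch 2 2 (by norm_num) _)).mul (isUnit_poch 2 2 (by norm_num) _)).mul
    (isUnit_poch 4 4 (by norm_num) _)

theorem summand_eq (i j k l : ℕ) :
    summand 1 5 1 12 (i, j, k, l)
      = X ^ ((i ^ 2 + 2 * j ^ 2 + 2 * i * j + 2 * (k + 2 * l) * i + (4 * (k + 2 * l) + 3) * j)
        + ((k + 2 * l) ^ 2 + (4 * l ^ 2 + 4 * l))) * (-1) ^ k * (ip 1 i * ip 2 j * ip 2 k * ip 4 l) := by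
  unfold summand den ip
  simp only
  rw [exponent_eq, Ring.mul_inverse_rev, Ring.mul_inverse_rev, Ring.mul_inverse_rev, pow_one]
  ring

theorem coeff_summand (a b c d : ℕ) (x : ℕ × ℕ × ℕ × ℕ) (n : ℕ)
    (h : n < EE x.1 x.2.1 x.2.2.1 x.2.2.2 + a * x.1 + b * x.2.1 + c * x.2.2.1 + d * x.2.2.2) :
    coeff n (summand a b c d x) = 0 := by
  unfold summand
  rw [mul_assoc, coeff_X_pow_mul', if_neg (by omega)]

/-- the box -/
def box (L : ℕ) : Finset (ℕ × ℕ × ℕ × ℕ) := range L ×ˢ range L ×ˢ range L ×ˢ range L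

theorem coeff_out (n L : ℕ) (hn : n < L) (x : ℕ × ℕ × ℕ × ℕ) (hx : x ∉ box L) :
    coeff n (summand 1 5 1 12 x) = 0 := by
  apply coeff_summand
  have := exponent_large x.1 x.2.1 x.2.2.1 x.2.2.2 (n + 1) (by
    unfold box at hx
    simp only [mem_product, mem_range, not_and_or, not_lt] at hx
    omega)
  omega

theorem hasSum_coeff (n L : ℕ) (hn : n < L) :
    HasSum (fun x => coeff n (summand 1 5 1 12 x)) (∑ x ∈ box L, coeff n (summand 1 5 1 12 x)) :=
  hasSum_sum_of_ne_finset_zero (fun x hx => coeff_out n L hn x hx)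

theorem summable_summand : Summable (summand 1 5 1 12) := by
  rw [WithPiTopology.summable_iff_summable_coeff]
  intro d
  exact (hasSum_coeff d (d + 1) (by omega)).summable

theorem coeff_F3 (n L : ℕ) (hn : n < L) :
    coeff n (F3 1 5 1 12) = coeff n (∑ x ∈ box L, summand 1 5 1 12 x) := by
  have h := summable_summand.hasSum
  rw [WithPiTopology.hasSum_iff_hasSum_coeff] at h
  rw [map_sum]
  exact (h n).unique (hasSum_coeff n L hn)

theorem qm_F3 (N L : ℕ) (hL : N ≤ L) :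
    qm N (F3 1 5 1 12) = qm N (∑ x ∈ box L, summand 1 5 1 12 x) := by
  rw [qm_eq_iff]
  intro n hn
  exact coeff_F3 n L (by omega)

theorem multipliable_poch (a c : ℕ) (hc : 0 < c) :
    Multipliable (fun m : ℕ => (1 : PowerSeries ℤ) - X ^ a * (X ^ c) ^ m) := by
  have h : Tendsto (fun i : ℕ ↦ (-((X : PowerSeries ℤ) ^ a * (X ^ c) ^ i)).order) atTop (nhds ⊤) := by
    refine ENat.tendsto_nhds_top_iff_natCast_lt.mpr fun n ↦ eventually_atTop.mpr ⟨n + 1, ?_⟩
    intro m hm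
    rw [order_neg, ← pow_mul, ← pow_add, order_X_pow]
    norm_cast
    nlinarith
  simpa [sub_eq_add_neg] using
    WithPiTopology.multipliable_one_add_of_tendsto_order_atTop_nhds_top ℤ h

theorem qm_poch_stable (N a c : ℕ) (ha : 0 < a) (hc : 0 < c) (L k : ℕ) (hL : N ≤ L) :
    qm N (poch (X ^ a) (X ^ c) (L + k)) = qm N (poch (X ^ a) (X ^ c) L) := by
  have h := prod_stable (qm N X) N (qm_X_pow N) (fun i => a + c * i) (fun i => by nlinarith) L k hL
  unfold poch
  rw [map_prod, map_prod]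
  have e : ∀ m : ℕ, qm N (1 - X ^ a * (X ^ c) ^ m) = 1 - (qm N X) ^ (a + c * m) := by
    intro m
    rw [map_sub, map_one, ← pow_mul, ← pow_add, map_pow]
  simp_rw [e]
  exact h

theorem coeff_pochInf (a c : ℕ) (ha : 0 < a) (hc : 0 < c) (n L : ℕ) (hn : n < L) :
    coeff n (pochInf (X ^ a) (X ^ c)) = coeff n (poch (X ^ a) (X ^ c) L) := by
  have h := (multipliable_poch a c hc).hasProd.tendsto_prod_nat
  rw [WithPiTopology.tendsto_iff_coeff_tendsto] at h
  have h1 := h n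
  have h2 : Tendsto (fun i => coeff n (∏ m ∈ range i, ((1 : PowerSeries ℤ) - X ^ a * (X ^ c) ^ m)))
      atTop (nhds (coeff n (poch (X ^ a) (X ^ c) L))) := by
    apply tendsto_atTop_of_eventually_const (i₀ := L)
    intro i hi
    obtain ⟨k, rfl⟩ := Nat.exists_eq_add_of_le hi
    exact (qm_eq_iff L _ _).mp (qm_poch_stable L a c ha hc L k le_rfl) n hn
  exact tendsto_nhds_unique h1 h2

theorem qm_pochInf (a c : ℕ) (ha : 0 < a) (hc : 0 < c) (N L : ℕ) (hL : N ≤ L) :
    qm N (pochInf (X ^ a) (X ^ c)) = qm N (poch (X ^ a) (X ^ c) L) := by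
  rw [qm_eq_iff]
  intro n hn
  exact coeff_pochInf a c ha hc n L (by omega)

theorem isUnit_pochInf (a c : ℕ) (ha : 0 < a) (hc : 0 < c) : IsUnit (pochInf (X ^ a) (X ^ c)) := by
  rw [isUnit_iff_constantCoeff, ← coeff_zero_eq_constantCoeff_apply, coeff_pochInf a c ha hc 0 1 (by omega)]
  unfold poch
  simp [ha.ne']

theorem sum_reorder {A : Type*} [AddCommMonoid A] (s : Finset ℕ) (f : ℕ → ℕ → ℕ → ℕ → A) :
    ∑ i ∈ s, ∑ j ∈ s, ∑ k ∈ s, ∑ l ∈ s, f i j k l = ∑ k ∈ s, ∑ l ∈ s, ∑ i ∈ s, ∑ j ∈ s, f i j k l := by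
  calc _ = ∑ i ∈ s, ∑ k ∈ s, ∑ j ∈ s, ∑ l ∈ s, f i j k l := by
        apply sum_congr rfl; intro i _; exact sum_comm
    _ = ∑ k ∈ s, ∑ i ∈ s, ∑ j ∈ s, ∑ l ∈ s, f i j k l := sum_comm
    _ = ∑ k ∈ s, ∑ i ∈ s, ∑ l ∈ s, ∑ j ∈ s, f i j k l := by
        apply sum_congr rfl; intro k _; apply sum_congr rfl; intro i _; exact sum_comm
    _ = _ := by
        apply sum_congr rfl; intro k _; exact sum_comm

theorem core (N L : ℕ) (hL : N ≤ L) :
    qm N (poch (X ^ 2) (X ^ 2) N) * qm N (∑ x ∈ box (L + 1), summand 1 5 1 12 x)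
      = theta (qm N X) (L + 1) := by
  have hN := qm_X_pow N
  have h := T_val (qm N X) (fun n => qm N (ip 1 n)) (fun n => qm N (ip 2 n)) (fun n => qm N (ip 4 n))
    (fun k => qm N (pzR k)) (fun k hk => by rw [pzR_neg k hk, map_zero])
    (fun n => by rw [pzR_nat]) N hN
    (by rw [ip_zero, map_one]) (by rw [ip_zero, map_one])
    (fun n => by
      rw [← ip_succ 1 (by norm_num) n, map_mul, map_sub, map_one, map_pow, one_mul])
    (fun n => by
      rw [← ip_succ 2 (by norm_num) n, map_mul, map_sub, map_one, map_pow]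
      congr 2)
    (fun n L M hnL hnM => by
      have h := congrArg (qm N) (starR n L M hnL hnM)
      unfold RA kk at h ⊢
      simp only [map_sum, map_mul, map_sub, map_one, map_pow, map_add, map_prod] at h ⊢
      exact h) L hL
  rw [← h]
  congr 1
  · rw [poch_XX, map_prod]
    apply prod_congr rfl
    intro m _
    rw [map_sub, map_one, map_pow]
    congr 1
  · unfold box
    rw [sum_product]
    simp_rw [sum_product]
    rw [← sum_reorder (range (L + 1)) (fun i j k l =>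
      (qm N X) ^ ((i ^ 2 + 2 * j ^ 2 + 2 * i * j + 2 * (k + 2 * l) * i + (4 * (k + 2 * l) + 3) * j)
        + ((k + 2 * l) ^ 2 + (4 * l ^ 2 + 4 * l))) * (-1) ^ k
          * (qm N (ip 1 i) * qm N (ip 2 j) * qm N (ip 2 k) * qm N (ip 4 l)))]
    rw [map_sum]
    apply sum_congr rfl
    intro i _
    rw [map_sum]
    apply sum_congr rfl
    intro j _
    rw [map_sum]
    apply sum_congr rfl
    intro k _
    rw [map_sum]
    apply sum_congr rfl
    intro l _
    rw [summand_eq]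
    simp only [map_mul, map_pow, map_neg, map_one]

theorem poch16 (a L : ℕ) : poch (X ^ a) (X ^ 16) L = ∏ m ∈ range L, (1 - (X : PowerSeries ℤ) ^ (16 * m + a)) := by
  unfold poch
  apply prod_congr rfl
  intro m _
  rw [← pow_mul, ← pow_add, add_comm]

theorem main_mod (N : ℕ) :
    qm N (pochInf (X ^ 2) (X ^ 2) * brInf 5 16 * F3 1 5 1 12)
      = qm N (pochInf (X ^ 16) (X ^ 16) * brInf 10 16) := by
  have hq := quint N (N + 1) (N + 1) (by omega) (by omega)
  have hq' : qm N ((∑ m ∈ range (N + 1), (-1) ^ m * (X ^ (24*m^2+7*m) + X ^ (24*m^2+23*m+5) - X ^ (24*m^2+25*m+6) - X ^ (24*m^2+41*m+17)))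
        * ((∏ m ∈ range (N + 1), (1 - X ^ (16*m+11))) * (∏ m ∈ range (N + 1), (1 - X ^ (16*m+5)))))
      = qm N ((∏ m ∈ range (N + 1), (1 - X ^ (16*m+16))) * (∏ m ∈ range (N + 1), (1 - X ^ (16*m+6))) * (∏ m ∈ range (N + 1), (1 - X ^ (16*m+10)))) := by
    rw [Ideal.Quotient.eq, Ideal.mem_span_singleton]
    exact hq
  rw [← poch16, ← poch16, ← poch16, ← poch16, ← poch16] at hq'
  have hth : qm N (∑ m ∈ range (N + 1), (-1) ^ m * (X ^ (24*m^2+7*m) + X ^ (24*m^2+23*m+5) - X ^ (24*m^2+25*m+6) - X ^ (24*m^2+41*m+17)))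
      = theta (qm N X) (N + 1) := by
    unfold theta
    simp only [map_sum, map_mul, map_sub, map_add, map_pow, map_neg, map_one]
  have hc := core N N le_rfl
  unfold brInf
  simp only [map_mul] at hq' ⊢
  rw [hth] at hq'
  have s1 : 16 - 5 = 11 := by norm_num
  have s2 : 16 - 10 = 6 := by norm_num
  rw [s1, s2]
  rw [qm_pochInf 2 2 (by norm_num) (by norm_num) N N le_rfl,
    qm_pochInf 5 16 (by norm_num) (by norm_num) N (N + 1) (by omega),
    qm_pochInf 11 16 (by norm_num) (by norm_num) N (N + 1) (by omega),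
    qm_pochInf 16 16 (by norm_num) (by norm_num) N (N + 1) (by omega),
    qm_pochInf 10 16 (by norm_num) (by norm_num) N (N + 1) (by omega),
    qm_pochInf 6 16 (by norm_num) (by norm_num) N (N + 1) (by omega),
    qm_F3 N (N + 1) (by omega)]
  calc _ = (qm N (poch (X ^ 2) (X ^ 2) N) * qm N (∑ x ∈ box (N + 1), summand 1 5 1 12 x))
        * (qm N (poch (X ^ 11) (X ^ 16) (N + 1)) * qm N (poch (X ^ 5) (X ^ 16) (N + 1))) := by ring
    _ = _ := by rw [hc, hq']; ring

theorem main_eq : F3 1 5 1 12 = chi 5 := by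
  have h := eq_of_qm _ _ main_mod
  have hu : IsUnit (pochInf (X ^ 2) (X ^ 2) * brInf 5 16) := by
    unfold brInf
    exact (isUnit_pochInf 2 2 (by norm_num) (by norm_num)).mul
      ((isUnit_pochInf 5 16 (by norm_num) (by norm_num)).mul
        (isUnit_pochInf (16 - 5) 16 (by norm_num) (by norm_num)))
  unfold chi
  rw [show 2 * 5 = 10 by norm_num, ← h, mul_comm (pochInf (X ^ 2) (X ^ 2) * brInf 5 16), mul_assoc,
    Ring.mul_inverse_cancel _ hu, mul_one]

end Pool.Agent.R218.QI
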